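import Mathlib

/-!
# Cyclic sequences of distinct integers: total variation against sign changes, and the resulting
bound for closed neighbourhood sums of cycles whose length is divisible by 3.
-/

namespace Pool.Agent.CycNS

open Finset

/-- A sum over a full period is invariant under shifts. -/
theorem sum_shift (k : ℕ) (u : ℕ → ℤ) (hu : ∀ j, u (j + k) = u j) (t : ℕ) :
    ∑ j ∈ range k, u (j + t) = ∑ j ∈ range k, u j := by
  induction t with
  | zero => simp
  | succ t ih =>
    rw [← ih]
    have h1 := Finset.sum_range_succ (fun j => u (j + t)) k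
    have h2 := Finset.sum_range_succ' (fun j => u (j + t)) k
    rw [h1] at h2
    have h3 : u (k + t) = u (0 + t) := by
      rw [show k + t = (0 + t) + k by ring]; exact hu _
    rw [h3] at h2
    have h4 : ∀ j, u (j + (t + 1)) = u (j + 1 + t) := fun j => by congr 1; ring
    simp only [h4]
    linarith

/-- The indicator of a sign change between the steps `j → j+1` and `j+1 → j+2`. -/
def sc (a : ℕ → ℤ) (j : ℕ) : ℤ :=
  if (a (j + 1) - a j) * (a (j + 2) - a (j + 1)) < 0 then 1 else 0

theorem core_min (k : ℕ) (a : ℕ → ℤ) (ha : ∀ j, a (j + k) = a j)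
    (inj : ∀ i < k, ∀ j < k, a i = a j → i = j) (h0 : ∀ j < k, a 0 ≤ a j)
    (p : ℕ) (hp : p < k) (hp0 : 0 < p) (hmax : ∀ j < k, a j ≤ a p) :
    ∃ B : ℤ, 0 ≤ B ∧ 2 * ((k : ℤ) - 1) + 2 * B ≤ ∑ j ∈ range k, |a (j + 1) - a j| ∧
      ∑ j ∈ range k, sc a j ≤ 2 + 2 * B := by
  classical
  set bad : ℕ → ℤ := fun j => if j < p then (if a (j + 1) - a j < 0 then 1 else 0)
    else (if 0 < a (j + 1) - a j then 1 else 0) with hbad
  have bad0 : ∀ j, 0 ≤ bad j := by
    intro j; simp only [hbad]; split_ifs <;> norm_num
  refine ⟨∑ j ∈ range k, bad j, Finset.sum_nonneg (fun j _ => bad0 j), ?_, ?_⟩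
  · -- total variation
    have hR : (k : ℤ) - 1 ≤ a p - a 0 := by
      have hsub : (range k).image a ⊆ Finset.Icc (a 0) (a p) := by
        intro x hx
        rw [Finset.mem_image] at hx
        obtain ⟨j, hj, rfl⟩ := hx
        rw [Finset.mem_range] at hj
        exact Finset.mem_Icc.2 ⟨h0 j hj, hmax j hj⟩
      have hcard : ((range k).image a).card = k := by
        rw [Finset.card_image_of_injOn, Finset.card_range]
        intro i hi j hj hij
        exact inj i (by simpa using hi) j (by simpa using hj) hij
      have := Finset.card_le_card hsub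
      rw [hcard, Int.card_Icc] at this
      omega
    have hsplit : ∑ j ∈ range k, (if j < p then (a (j + 1) - a j) else -(a (j + 1) - a j))
        = 2 * (a p - a 0) := by
      have e1 : ∑ j ∈ range p, (if j < p then (a (j + 1) - a j) else -(a (j + 1) - a j))
          = a p - a 0 := by
        rw [Finset.sum_congr rfl (fun j hj => if_pos (Finset.mem_range.1 hj))]
        exact Finset.sum_range_sub a p
      have e2 : ∑ j ∈ Finset.Ico p k, (if j < p then (a (j + 1) - a j) else -(a (j + 1) - a j))
          = a p - a 0 := by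
        rw [Finset.sum_congr rfl (fun j hj => if_neg (by
          have := (Finset.mem_Ico.1 hj).1; omega))]
        rw [Finset.sum_neg_distrib, Finset.sum_Ico_eq_sub _ hp.le, Finset.sum_range_sub,
          Finset.sum_range_sub]
        have : a k = a 0 := by have := ha 0; rwa [zero_add] at this
        rw [this]; ring
      rw [← Finset.sum_range_add_sum_Ico _ hp.le, e1, e2]; ring
    have hterm : ∀ j ∈ range k, (if j < p then (a (j + 1) - a j) else -(a (j + 1) - a j))
        + 2 * bad j ≤ |a (j + 1) - a j| := by
      intro j _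
      simp only [hbad]
      split_ifs with h1 h2 h2
      · rw [abs_of_neg h2]; linarith [Int.add_one_le_iff.2 h2]
      · rw [abs_of_nonneg (not_lt.1 h2)]; linarith
      · rw [abs_of_pos h2]; linarith [Int.add_one_le_iff.2 h2]
      · rw [abs_of_nonpos (not_lt.1 h2)]; linarith
    have := Finset.sum_le_sum hterm
    rw [Finset.sum_add_distrib, hsplit, ← Finset.mul_sum] at this
    linarith
  · -- sign changes
    have hterm : ∀ j ∈ range k, sc a j ≤ bad j + (if j + 1 < k then bad (j + 1) else 0)
        + (if j = p - 1 then 1 else 0) + (if j = k - 1 then 1 else 0) := by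
      intro j hj
      rw [Finset.mem_range] at hj
      have b1 := bad0 j
      have b2 := bad0 (j + 1)
      unfold sc
      by_cases hs : (a (j + 1) - a j) * (a (j + 2) - a (j + 1)) < 0
      · rw [if_pos hs]
        by_cases hjk : j = k - 1
        · rw [if_pos hjk]; split_ifs <;> linarith
        by_cases hjp : j = p - 1
        · rw [if_pos hjp]; split_ifs <;> linarith
        rw [if_neg hjk, if_neg hjp, if_pos (by omega)]
        simp only [hbad]
        rcases mul_neg_iff.1 hs with ⟨g1, g2⟩ | ⟨g1, g2⟩
        · by_cases hj1 : j < p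
          · rw [if_pos (show j + 1 < p by omega), if_pos hj1, if_pos g2]
            split_ifs <;> norm_num
          · rw [if_neg (show ¬ j + 1 < p by omega), if_neg hj1, if_pos g1]
            split_ifs <;> norm_num
        · by_cases hj1 : j < p
          · rw [if_pos (show j + 1 < p by omega), if_pos hj1, if_pos g1]
            split_ifs <;> norm_num
          · rw [if_neg (show ¬ j + 1 < p by omega), if_neg hj1, if_pos g2]
            split_ifs <;> norm_num
      · rw [if_neg hs]
        split_ifs <;> linarith
    have hsum := Finset.sum_le_sum hterm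
    simp only [Finset.sum_add_distrib] at hsum
    have s1 : ∑ j ∈ range k, (if j = p - 1 then (1 : ℤ) else 0) ≤ 1 := by
      rw [Finset.sum_ite_eq' (range k)]; split_ifs <;> norm_num
    have s2 : ∑ j ∈ range k, (if j = k - 1 then (1 : ℤ) else 0) ≤ 1 := by
      rw [Finset.sum_ite_eq' (range k)]; split_ifs <;> norm_num
    have s3 : ∑ j ∈ range k, (if j + 1 < k then bad (j + 1) else 0) ≤ ∑ j ∈ range k, bad j := by
      obtain ⟨m, rfl⟩ : ∃ m, k = m + 1 := ⟨k - 1, by omega⟩
      rw [Finset.sum_range_succ, if_neg (lt_irrefl _), add_zero, Finset.sum_range_succ' bad]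
      have : ∑ j ∈ range m, (if j + 1 < m + 1 then bad (j + 1) else 0)
          = ∑ j ∈ range m, bad (j + 1) :=
        Finset.sum_congr rfl (fun j hj => if_pos (by rw [Finset.mem_range] at hj; omega))
      rw [this]
      linarith [bad0 0]
    linarith

/-- A `k`-periodic integer sequence with `k` distinct values: there is `B ≥ 0` such that its total
variation over a period is at least `2(k-1) + 2B`, and it has at most `2 + 2B` sign changes of
steps per period. -/
theorem core (k : ℕ) (hk : 2 ≤ k) (a : ℕ → ℤ) (ha : ∀ j, a (j + k) = a j)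
    (inj : ∀ i < k, ∀ j < k, a i = a j → i = j) :
    ∃ B : ℤ, 0 ≤ B ∧ 2 * ((k : ℤ) - 1) + 2 * B ≤ ∑ j ∈ range k, |a (j + 1) - a j| ∧
      ∑ j ∈ range k, sc a j ≤ 2 + 2 * B := by
  classical
  have hne : (range k).Nonempty := ⟨0, Finset.mem_range.2 (by omega)⟩
  obtain ⟨j0, hj0, hmin⟩ := Finset.exists_min_image (range k) a hne
  rw [Finset.mem_range] at hj0
  -- values of `a` everywhere are values on `range k`
  have hmod : ∀ j, a j = a (j % k) := by
    intro j
    have : ∀ q, a (j % k + k * q) = a (j % k) := by
      intro q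
      induction q with
      | zero => simp
      | succ q ih => rw [Nat.mul_succ, ← add_assoc, ha, ih]
    conv_lhs => rw [← Nat.mod_add_div j k]
    exact this _
  have hk0 : 0 < k := by omega
  set b : ℕ → ℤ := fun j => a (j + j0) with hb
  have hbper : ∀ j, b (j + k) = b j := by
    intro j; simp only [hb]; rw [show j + k + j0 = (j + j0) + k by ring]; exact ha _
  have hbinj : ∀ i < k, ∀ j < k, b i = b j → i = j := by
    intro i hi j hj hij
    simp only [hb] at hij
    rw [hmod (i + j0), hmod (j + j0)] at hij
    have := inj _ (Nat.mod_lt _ hk0) _ (Nat.mod_lt _ hk0) hij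
    have h2 : i ≡ j [MOD k] := Nat.ModEq.add_right_cancel' j0 this
    exact Nat.ModEq.eq_of_lt_of_lt h2 hi hj
  have hb0 : ∀ j < k, b 0 ≤ b j := by
    intro j _
    simp only [hb, zero_add]
    rw [hmod (j + j0)]
    exact hmin _ (Finset.mem_range.2 (Nat.mod_lt _ hk0))
  obtain ⟨p, hp, hmax⟩ := Finset.exists_max_image (range k) b hne
  rw [Finset.mem_range] at hp
  have hp0 : 0 < p := by
    rcases Nat.eq_zero_or_pos p with rfl | h
    · exfalso
      have h1 := hmax 1 (Finset.mem_range.2 (by omega))
      have h2 := hb0 1 (by omega)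
      have := hbinj 0 (by omega) 1 (by omega) (le_antisymm h2 h1)
      omega
    · exact h
  obtain ⟨B, hB0, hB1, hB2⟩ := core_min k b hbper hbinj hb0 p hp hp0
    (fun j hj => hmax j (Finset.mem_range.2 hj))
  refine ⟨B, hB0, ?_, ?_⟩
  · have := sum_shift k (fun j => |a (j + 1) - a j|) (fun j => by
      rw [show j + k + 1 = (j + 1) + k by ring, ha, ha]) j0
    rw [← this]
    refine hB1.trans (le_of_eq (Finset.sum_congr rfl (fun j _ => ?_)))
    simp only [hb]
    rw [show j + 1 + j0 = j + j0 + 1 by ring]
  · have := sum_shift k (fun j => sc a j) (fun j => by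
      simp only [sc]
      rw [show j + k + 1 = (j + 1) + k by ring, show j + k + 2 = (j + 2) + k by ring,
        ha, ha, ha]) j0
    rw [← this]
    refine le_trans (le_of_eq (Finset.sum_congr rfl (fun j _ => ?_))) hB2
    simp only [hb, sc]
    rw [show j + 1 + j0 = j + j0 + 1 by ring, show j + 2 + j0 = j + j0 + 2 by ring]

end Pool.Agent.CycNS
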