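import Mathlib
import Pool.Agent.CycNS.Core

/-!
# One cycle: the inequality `5 t ≤ 4 E + 18` (and `5 t ≤ 4 E + 6` if `3 ∤ t`).
-/

namespace Pool.Agent.CycNS

open Finset

theorem per_mod {α : Type*} (t : ℕ) (F : ℕ → α) (hF : ∀ j, F (j + t) = F j) (j : ℕ) :
    F j = F (j % t) := by
  have : ∀ q, F (j % t + t * q) = F (j % t) := by
    intro q
    induction q with
    | zero => simp
    | succ q ih => rw [Nat.mul_succ, ← add_assoc, hF, ih]
  conv_lhs => rw [← Nat.mod_add_div j t]
  exact this _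

/-- Values of a `t`-periodic sequence injective on `range t` agree only at congruent places. -/
theorem per_inj (t : ℕ) (ht : 0 < t) (F : ℕ → ℤ) (hF : ∀ j, F (j + t) = F j)
    (inj : ∀ i < t, ∀ j < t, F i = F j → i = j) {x y : ℕ} (h : F x = F y) : x ≡ y [MOD t] := by
  rw [per_mod t F hF x, per_mod t F hF y] at h
  exact inj _ (Nat.mod_lt _ ht) _ (Nat.mod_lt _ ht) h

/-- sign change indicator along steps of length three -/
def sc3 (F : ℕ → ℤ) (i : ℕ) : ℤ :=
  if (F (i + 3) - F i) * (F (i + 6) - F (i + 3)) < 0 then 1 else 0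

theorem sum_three (m : ℕ) (u : ℕ → ℤ) :
    ∑ i ∈ range (3 * m), u i
      = ∑ j ∈ range m, u (3 * j) + ∑ j ∈ range m, u (3 * j + 1) + ∑ j ∈ range m, u (3 * j + 2) := by
  induction m with
  | zero => simp
  | succ m ih =>
    rw [show 3 * (m + 1) = 3 * m + 1 + 1 + 1 by ring, sum_range_succ, sum_range_succ,
      sum_range_succ, ih, sum_range_succ, sum_range_succ, sum_range_succ]
    ring

/-- Variation and sign changes along the steps of length three, cycle length `3 m`. -/
theorem tv_three (m : ℕ) (hm : 2 ≤ m) (F : ℕ → ℤ) (hF : ∀ j, F (j + 3 * m) = F j)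
    (inj : ∀ i < 3 * m, ∀ j < 3 * m, F i = F j → i = j) :
    ∃ B : ℤ, 0 ≤ B ∧ 2 * ((3 * m : ℕ) : ℤ) - 6 + 2 * B ≤ ∑ i ∈ range (3 * m), |F (i + 3) - F i| ∧
      ∑ i ∈ range (3 * m), sc3 F i ≤ 6 + 2 * B := by
  have key : ∀ c < 3, ∃ B : ℤ, 0 ≤ B ∧ 2 * ((m : ℤ) - 1) + 2 * B ≤
      ∑ j ∈ range m, |F (3 * j + c + 3) - F (3 * j + c)| ∧
      ∑ j ∈ range m, sc3 F (3 * j + c) ≤ 2 + 2 * B := by
    intro c hc
    obtain ⟨B, h0, h1, h2⟩ := core m hm (fun j => F (3 * j + c))
      (fun j => by
        show F (3 * (j + m) + c) = F (3 * j + c)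
        rw [show 3 * (j + m) + c = (3 * j + c) + 3 * m by ring]; exact hF _)
      (fun i hi j hj hij => by
        have := inj (3 * i + c) (by omega) (3 * j + c) (by omega) hij
        omega)
    refine ⟨B, h0, ?_, ?_⟩
    · refine h1.trans (le_of_eq (Finset.sum_congr rfl (fun j _ => ?_)))
      show |F (3 * (j + 1) + c) - F (3 * j + c)| = _
      rw [show 3 * (j + 1) + c = 3 * j + c + 3 by ring]
    · refine le_trans (le_of_eq (Finset.sum_congr rfl (fun j _ => ?_))) h2
      show sc3 F (3 * j + c) = sc (fun j => F (3 * j + c)) j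
      unfold sc3 sc
      show _ = if (F (3 * (j + 1) + c) - F (3 * j + c)) *
        (F (3 * (j + 2) + c) - F (3 * (j + 1) + c)) < 0 then 1 else 0
      rw [show 3 * (j + 1) + c = 3 * j + c + 3 by ring, show 3 * (j + 2) + c = 3 * j + c + 6 by ring]
  obtain ⟨B0, b00, b01, b02⟩ := key 0 (by norm_num)
  obtain ⟨B1, b10, b11, b12⟩ := key 1 (by norm_num)
  obtain ⟨B2, b20, b21, b22⟩ := key 2 (by norm_num)
  refine ⟨B0 + B1 + B2, by linarith, ?_, ?_⟩
  · rw [sum_three m (fun i => |F (i + 3) - F i|)]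
    simp only [Nat.add_zero] at b01
    push_cast
    linarith
  · rw [sum_three m (fun i => sc3 F i)]
    simp only [Nat.add_zero] at b02
    linarith

/-- For `t` prime to 3, multiplication by 3 permutes the residues mod `t`. -/
theorem sum_mul_three (t : ℕ) (ht : 0 < t) (h3 : Nat.Coprime 3 t) (u : ℕ → ℤ)
    (hu : ∀ j, u (j + t) = u j) : ∑ j ∈ range t, u (3 * j) = ∑ i ∈ range t, u i := by
  have hmaps : Set.MapsTo (fun j => 3 * j % t) (range t : Set ℕ) (range t : Set ℕ) := by
    intro j _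
    simpa using Nat.mod_lt _ ht
  have hinj : Set.InjOn (fun j => 3 * j % t) (range t : Set ℕ) := by
    intro i hi j hj hij
    have h1 : 3 * i ≡ 3 * j [MOD t] := hij
    have h2 : i ≡ j [MOD t] := Nat.ModEq.cancel_left_of_coprime (by
      rw [Nat.gcd_comm]; exact h3) h1
    exact Nat.ModEq.eq_of_lt_of_lt h2 (by simpa using hi) (by simpa using hj)
  have himg : (range t).image (fun j => 3 * j % t) = range t := by
    apply Finset.eq_of_subset_of_card_le
    · intro x hx
      rw [Finset.mem_image] at hx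
      obtain ⟨j, hj, rfl⟩ := hx
      exact Finset.mem_range.2 (Nat.mod_lt _ ht)
    · rw [Finset.card_image_of_injOn hinj]
  conv_rhs => rw [← himg]
  rw [Finset.sum_image hinj]
  refine Finset.sum_congr rfl (fun j _ => ?_)
  exact per_mod t u hu _

theorem tv_one (t : ℕ) (ht : 4 ≤ t) (h3 : Nat.Coprime 3 t) (F : ℕ → ℤ)
    (hF : ∀ j, F (j + t) = F j) (inj : ∀ i < t, ∀ j < t, F i = F j → i = j) :
    ∃ B : ℤ, 0 ≤ B ∧ 2 * (t : ℤ) - 2 + 2 * B ≤ ∑ i ∈ range t, |F (i + 3) - F i| ∧
      ∑ i ∈ range t, sc3 F i ≤ 2 + 2 * B := by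
  have hper3 : ∀ j, F (3 * (j + t)) = F (3 * j) := by
    intro j
    rw [show 3 * (j + t) = (3 * j + t + t) + t by ring, hF, hF, hF]
  obtain ⟨B, h0, h1, h2⟩ := core t (by omega) (fun j => F (3 * j)) hper3
    (fun i hi j hj hij => by
      have h1 : 3 * i ≡ 3 * j [MOD t] := per_inj t (by omega) F hF inj hij
      have h2 : i ≡ j [MOD t] := Nat.ModEq.cancel_left_of_coprime (by
        rw [Nat.gcd_comm]; exact h3) h1
      exact Nat.ModEq.eq_of_lt_of_lt h2 hi hj)
  refine ⟨B, h0, ?_, ?_⟩
  · rw [← sum_mul_three t (by omega) h3 (fun i => |F (i + 3) - F i|) (fun j => by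
      rw [show j + t + 3 = (j + 3) + t by ring, hF, hF])]
    have : ∑ j ∈ range t, |F (3 * (j + 1)) - F (3 * j)|
        = ∑ j ∈ range t, |F (3 * j + 3) - F (3 * j)| :=
      Finset.sum_congr rfl (fun j _ => by rw [show 3 * (j + 1) = 3 * j + 3 by ring])
    linarith
  · rw [← sum_mul_three t (by omega) h3 (fun i => sc3 F i) (fun j => by
      unfold sc3
      rw [show j + t + 3 = (j + 3) + t by ring, show j + t + 6 = (j + 6) + t by ring,
        hF, hF, hF])]
    refine le_trans (le_of_eq (Finset.sum_congr rfl (fun j _ => ?_))) h2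
    show sc3 F (3 * j) = sc (fun j => F (3 * j)) j
    unfold sc3 sc
    show _ = if (F (3 * (j + 1)) - F (3 * j)) * (F (3 * (j + 2)) - F (3 * (j + 1))) < 0 then 1 else 0
    rw [show 3 * (j + 1) = 3 * j + 3 by ring, show 3 * (j + 2) = 3 * j + 6 by ring]

/-- The heart of the matter.  `F` is the labeling along one cycle of length `t ≥ 4`,
`e i = F i + F (i+1) + F (i+2) - θ ≥ 0`.  If the steps of length three have total variation at
least `2 t - 2 r + 2 B` and at most `2 r + 2 B` sign changes, then `5 t ≤ 4 ∑ e + 6 r`. -/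
theorem cycle_bound (t : ℕ) (ht : 4 ≤ t) (F : ℕ → ℤ) (hF : ∀ j, F (j + t) = F j)
    (inj : ∀ i < t, ∀ j < t, F i = F j → i = j) (θ r B : ℤ) (hB : 0 ≤ B)
    (h1 : 2 * (t : ℤ) - 2 * r + 2 * B ≤ ∑ i ∈ range t, |F (i + 3) - F i|)
    (h2 : ∑ i ∈ range t, sc3 F i ≤ 2 * r + 2 * B)
    (hθ : ∀ i, θ ≤ F i + F (i + 1) + F (i + 2)) :
    5 * (t : ℤ) ≤ 4 * ∑ i ∈ range t, (F i + F (i + 1) + F (i + 2) - θ) + 6 * r := by
  set e : ℕ → ℤ := fun i => F i + F (i + 1) + F (i + 2) - θ with he
  have e0 : ∀ i, 0 ≤ e i := fun i => by simp only [he]; linarith [hθ i]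
  have hstep : ∀ i, F (i + 3) - F i = e (i + 1) - e i := by
    intro i
    simp only [he]
    rw [show i + 1 + 1 = i + 2 by ring, show i + 1 + 2 = i + 3 by ring]
    ring
  have hne : ∀ i, e (i + 1) ≠ e i := by
    intro i h
    have h0 : F (i + 3) = F i := by have := hstep i; rw [h, sub_self] at this; linarith
    have h1 : i + 3 ≡ i [MOD t] := per_inj t (by omega) F hF inj h0
    have h2 : t ∣ 3 := by
      have := (Nat.modEq_iff_dvd' (Nat.le_add_right i 3)).1 h1.symm
      simpa using this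
    have := Nat.le_of_dvd (by norm_num) h2
    omega
  have eper : ∀ i, e (i + t) = e i := by
    intro i
    simp only [he]
    rw [show i + t + 1 = (i + 1) + t by ring, show i + t + 2 = (i + 2) + t by ring, hF, hF, hF]
  set mn : ℕ → ℤ := fun i => min (e i) (e (i + 1)) with hmn
  have mn0 : ∀ i, 0 ≤ mn i := fun i => le_min (e0 i) (e0 (i + 1))
  have mnper : ∀ i, mn (i + t) = mn i := by
    intro i
    simp only [hmn]
    rw [show i + t + 1 = (i + 1) + t by ring, eper, eper]
  -- total variation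
  have htv : ∑ i ∈ range t, |F (i + 3) - F i| = 2 * ∑ i ∈ range t, e i - 2 * ∑ i ∈ range t, mn i := by
    have hterm : ∀ i ∈ range t, |F (i + 3) - F i| = e i + e (i + 1) - 2 * mn i := by
      intro i _
      rw [hstep]
      simp only [hmn]
      rcases le_total (e i) (e (i + 1)) with h | h
      · rw [abs_of_nonneg (by linarith), min_eq_left h]; ring
      · rw [abs_of_nonpos (by linarith), min_eq_right h]; ring
    rw [Finset.sum_congr rfl hterm, Finset.sum_sub_distrib, Finset.sum_add_distrib,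
      sum_shift t e eper 1, ← Finset.mul_sum]
    ring
  -- sign changes
  have hsc : ∀ i, 1 - mn i - mn (i + 1) - mn (i + 2) - mn (i + 3) ≤ sc3 F i := by
    intro i
    have m0 := mn0 i
    have m1 := mn0 (i + 1)
    have m2 := mn0 (i + 2)
    have m3 := mn0 (i + 3)
    by_cases hall : mn i = 0 ∧ mn (i + 1) = 0 ∧ mn (i + 2) = 0 ∧ mn (i + 3) = 0
    · obtain ⟨z0, z1, z2, z3⟩ := hall
      rw [z0, z1, z2, z3]
      have : sc3 F i = 1 := by
        unfold sc3
        rw [if_pos]
        have e36 : F (i + 6) - F (i + 3) = e (i + 4) - e (i + 3) := by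
          have := hstep (i + 3)
          rwa [show i + 3 + 3 = i + 6 by ring, show i + 3 + 1 = i + 4 by ring] at this
        rw [hstep, e36]
        simp only [hmn] at z0 z1 z2 z3
        rw [show i + 1 + 1 = i + 2 by ring] at z1
        rw [show i + 2 + 1 = i + 3 by ring] at z2
        rw [show i + 3 + 1 = i + 4 by ring] at z3
        have n0 := hne i
        have n1 := hne (i + 1)
        have n2 := hne (i + 2)
        have n3 := hne (i + 3)
        rw [show i + 1 + 1 = i + 2 by ring] at n1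
        rw [show i + 2 + 1 = i + 3 by ring] at n2
        rw [show i + 3 + 1 = i + 4 by ring] at n3
        have p0 := e0 i
        have p1 := e0 (i + 1)
        have p2 := e0 (i + 2)
        have p3 := e0 (i + 3)
        have p4 := e0 (i + 4)
        rcases min_choice (e i) (e (i + 1)) with c0 | c0
        · rw [c0] at z0
          -- e i = 0, e (i+1) > 0, e (i+2) = 0, e (i+3) > 0, e (i+4) = 0
          have q1 : 0 < e (i + 1) := by omega
          have q2 : e (i + 2) = 0 := by
            rcases min_choice (e (i + 1)) (e (i + 2)) with c | c <;> omega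
          have q3 : 0 < e (i + 3) := by omega
          have q4 : e (i + 4) = 0 := by
            rcases min_choice (e (i + 3)) (e (i + 4)) with c | c <;> omega
          rw [z0, q4]
          nlinarith
        · rw [c0] at z0
          have q0 : 0 < e i := by omega
          have q2 : 0 < e (i + 2) := by omega
          have q3 : e (i + 3) = 0 := by
            rcases min_choice (e (i + 2)) (e (i + 3)) with c | c <;> omega
          have q4 : 0 < e (i + 4) := by omega
          rw [z0, q3]
          nlinarith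
      rw [this]; norm_num
    · have hs : 0 ≤ sc3 F i := by unfold sc3; split_ifs <;> norm_num
      have : 1 ≤ mn i + mn (i + 1) + mn (i + 2) + mn (i + 3) := by
        by_contra hlt
        push_neg at hlt
        apply hall
        refine ⟨?_, ?_, ?_, ?_⟩ <;> omega
      linarith
  have hsum : (t : ℤ) - 4 * ∑ i ∈ range t, mn i ≤ ∑ i ∈ range t, sc3 F i := by
    have := Finset.sum_le_sum (fun i (_ : i ∈ range t) => hsc i)
    simp only [Finset.sum_sub_distrib, Finset.sum_const, Finset.card_range, nsmul_eq_mul,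
      mul_one] at this
    rw [sum_shift t mn mnper 1, sum_shift t mn mnper 2, sum_shift t mn mnper 3] at this
    linarith
  rw [htv] at h1
  have hT : 0 ≤ ∑ i ∈ range t, mn i := Finset.sum_nonneg (fun i _ => mn0 i)
  linarith

/-- One cycle of length `t`, any `t ≥ 4`. -/
theorem cycle_ineq (t : ℕ) (ht : 4 ≤ t) (F : ℕ → ℤ) (hF : ∀ j, F (j + t) = F j)
    (inj : ∀ i < t, ∀ j < t, F i = F j → i = j) (θ : ℤ)
    (hθ : ∀ i, θ ≤ F i + F (i + 1) + F (i + 2)) :
    5 * (t : ℤ) ≤ 4 * ∑ i ∈ range t, (F i + F (i + 1) + F (i + 2) - θ)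
      + (if 3 ∣ t then 18 else 6) := by
  split_ifs with h3
  · obtain ⟨m, rfl⟩ := h3
    obtain ⟨B, h0, h1, h2⟩ := tv_three m (by omega) F hF inj
    exact cycle_bound (3 * m) ht F hF inj θ 3 B h0 (by linarith) (by linarith) hθ
  · obtain ⟨B, h0, h1, h2⟩ := tv_one t ht ((Nat.Prime.coprime_iff_not_dvd Nat.prime_three).2 h3)
      F hF inj
    exact cycle_bound t ht F hF inj θ 1 B h0 (by linarith) (by linarith) hθ

end Pool.Agent.CycNS
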