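import Mathlib

/-!
# Waves: cyclic sequences of length `3 m` whose three residue classes mod 3 are permutations of
`1, …, m` and all of whose sums of three consecutive terms are close to `3 (m + 1) / 2`.
-/

namespace Pool.Agent.CycNS

/-- The double of `x` lies within `δ` of `s`. -/
def Bd (s δ x : ℤ) : Prop := s - δ ≤ 2 * x ∧ 2 * x ≤ s + δ

/-- One period version: `W` on `[0, N)` with all cyclic triple sums in the range. -/
def TripleOK (N : ℕ) (s δ : ℤ) (W : ℕ → ℤ) : Prop :=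
  (∀ j, j + 2 < N → Bd s δ (W j + W (j + 1) + W (j + 2))) ∧
  Bd s δ (W (N - 2) + W (N - 1) + W 0) ∧ Bd s δ (W (N - 1) + W 0 + W 1)

/-- A wave for `m` with deviation `δ/2`. -/
def Good (m : ℕ) (δ : ℤ) : Prop :=
  ∃ W : ℕ → ℤ, (∀ j, W (j + 3 * m) = W j) ∧ (∀ j, 1 ≤ W j ∧ W j ≤ m) ∧
    (∀ j < 3 * m, ∀ j' < 3 * m, j % 3 = j' % 3 → W j = W j' → j = j') ∧
    ∀ j, Bd (3 * ((m : ℤ) + 1)) δ (W j + W (j + 1) + W (j + 2))

theorem triple_mod (N : ℕ) (hN : 2 ≤ N) (s δ : ℤ) (W : ℕ → ℤ) (h : TripleOK N s δ W) (j : ℕ) :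
    Bd s δ (W (j % N) + W ((j + 1) % N) + W ((j + 2) % N)) := by
  obtain ⟨h1, h2, h3⟩ := h
  have hlt : j % N < N := Nat.mod_lt _ (by omega)
  have e1 : (j + 1) % N = (j % N + 1) % N := by rw [Nat.mod_add_mod]
  have e2 : (j + 2) % N = (j % N + 2) % N := by rw [Nat.mod_add_mod]
  rw [e1, e2]
  generalize j % N = a at *
  by_cases ha : a + 2 < N
  · rw [Nat.mod_eq_of_lt (show a + 1 < N by omega), Nat.mod_eq_of_lt ha]
    exact h1 a ha
  by_cases hb : a + 2 = N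
  · obtain rfl : a = N - 2 := by omega
    rw [show N - 2 + 1 = N - 1 by omega, show N - 2 + 2 = N by omega, Nat.mod_self,
      Nat.mod_eq_of_lt (show N - 1 < N by omega)]
    exact h2
  · obtain rfl : a = N - 1 := by omega
    rw [show N - 1 + 1 = N by omega, Nat.mod_self, show N - 1 + 2 = N + 1 by omega,
      Nat.add_mod_left, Nat.mod_eq_of_lt (show 1 < N by omega)]
    exact h3

/-- A labeling `U` of the cycle `C_m` with deviation `δ/2`. -/
def GoodU (m : ℕ) (δ : ℤ) : Prop :=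
  ∃ U : ℕ → ℤ, (∀ j, U (j + m) = U j) ∧ (∀ j, 1 ≤ U j ∧ U j ≤ m) ∧
    (∀ j < m, ∀ j' < m, U j = U j' → j = j') ∧
    ∀ j, Bd (3 * ((m : ℤ) + 1)) δ (U j + U (j + 1) + U (j + 2))

theorem goodU_of (m : ℕ) (hm : 2 ≤ m) (δ : ℤ) (U : ℕ → ℤ)
    (hr : ∀ p < m, 1 ≤ U p ∧ U p ≤ m) (hi : ∀ p < m, ∀ q < m, U p = U q → p = q)
    (hs : TripleOK m (3 * ((m : ℤ) + 1)) δ U) : GoodU m δ := by
  have hm0 : 0 < m := by omega
  refine ⟨fun j => U (j % m), ?_, ?_, ?_, ?_⟩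
  · intro j
    show U ((j + m) % m) = U (j % m)
    rw [Nat.add_mod_right]
  · intro j; exact hr _ (Nat.mod_lt _ hm0)
  · intro j hj j' hj' hU
    have hU' : U j = U j' := by
      have h := hU
      simp only [Nat.mod_eq_of_lt hj, Nat.mod_eq_of_lt hj'] at h
      exact h
    exact hi j hj j' hj' hU'
  · intro j
    exact triple_mod m hm _ δ U hs j

/-- From a labeling `U` of `C_m`, `3 ∤ m`, a wave for `m`. -/
theorem good_of_goodU (m : ℕ) (hm : 2 ≤ m) (h3 : m % 3 ≠ 0) (δ : ℤ) (h : GoodU m δ) :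
    Good m δ := by
  obtain ⟨U, hper, hr, hi, hs⟩ := h
  have hm0 : 0 < m := by omega
  have hmod : ∀ j, U j = U (j % m) := by
    intro j
    have : ∀ q, U (j % m + m * q) = U (j % m) := by
      intro q
      induction q with
      | zero => simp
      | succ q ih => rw [Nat.mul_succ, ← add_assoc, hper, ih]
    conv_lhs => rw [← Nat.mod_add_div j m]
    exact this _
  refine ⟨U, ?_, hr, ?_, hs⟩
  · intro j
    rw [hmod, Nat.add_mul_mod_self_right, ← hmod]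
  · intro j hj j' hj' hm3 hU
    rw [hmod j, hmod j'] at hU
    have h1 : j ≡ j' [MOD m] := hi _ (Nat.mod_lt _ hm0) _ (Nat.mod_lt _ hm0) hU
    have h2 : j ≡ j' [MOD 3] := hm3
    have hcop : Nat.Coprime 3 m := by
      rw [Nat.Prime.coprime_iff_not_dvd Nat.prime_three]
      omega
    have h3 : j ≡ j' [MOD 3 * m] := (Nat.modEq_and_modEq_iff_modEq_mul hcop).1 ⟨h2, h1⟩
    exact Nat.ModEq.eq_of_lt_of_lt h3 hj hj'

theorem good_of_W (m : ℕ) (hm : 1 ≤ m) (δ : ℤ) (W : ℕ → ℤ)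
    (hr : ∀ p < 3 * m, 1 ≤ W p ∧ W p ≤ m)
    (hi : ∀ p < 3 * m, ∀ q < 3 * m, p % 3 = q % 3 → W p = W q → p = q)
    (hs : TripleOK (3 * m) (3 * ((m : ℤ) + 1)) δ W) : Good m δ := by
  have hm0 : 0 < 3 * m := by omega
  refine ⟨fun j => W (j % (3 * m)), ?_, ?_, ?_, ?_⟩
  · intro j
    show W ((j + 3 * m) % (3 * m)) = W (j % (3 * m))
    rw [Nat.add_mod_right]
  · intro j; exact hr _ (Nat.mod_lt _ hm0)
  · intro j hj j' hj' hmod hU
    have hU' : W j = W j' := by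
      have h := hU
      simp only [Nat.mod_eq_of_lt hj, Nat.mod_eq_of_lt hj'] at h
      exact h
    exact hi j hj j' hj' hmod hU'
  · intro j
    exact triple_mod (3 * m) (by omega) _ δ W hs j

/-- Interleaving three sequences. -/
def mix (X Y Z : ℕ → ℤ) (p : ℕ) : ℤ :=
  if p % 3 = 0 then X (p / 3) else if p % 3 = 1 then Y (p / 3) else Z (p / 3)

variable {X Y Z : ℕ → ℤ}

theorem mix0 (k : ℕ) : mix X Y Z (3 * k) = X k := by
  unfold mix; rw [if_pos (by omega), show 3 * k / 3 = k by omega]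

theorem mix1 (k : ℕ) : mix X Y Z (3 * k + 1) = Y k := by
  unfold mix; rw [if_neg (by omega), if_pos (by omega), show (3 * k + 1) / 3 = k by omega]

theorem mix2 (k : ℕ) : mix X Y Z (3 * k + 2) = Z k := by
  unfold mix; rw [if_neg (by omega), if_neg (by omega), show (3 * k + 2) / 3 = k by omega]

theorem triple0 (M : ℕ) (hM : 1 ≤ M) (s δ : ℤ)
    (hA : ∀ k < M, Bd s δ (X k + Y k + Z k))
    (hB : ∀ k, k + 1 < M → Bd s δ (Y k + Z k + X (k + 1)))
    (hC : ∀ k, k + 1 < M → Bd s δ (Z k + X (k + 1) + Y (k + 1)))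
    (hD : Bd s δ (Y (M - 1) + Z (M - 1) + X 0)) (hE : Bd s δ (Z (M - 1) + X 0 + Y 0)) :
    TripleOK (3 * M) s δ (mix X Y Z) := by
  refine ⟨?_, ?_, ?_⟩
  · intro j hj
    obtain ⟨k, hk | hk | hk⟩ : ∃ k, j = 3 * k ∨ j = 3 * k + 1 ∨ j = 3 * k + 2 :=
      ⟨j / 3, by omega⟩
    · subst hk
      rw [mix0, mix1, mix2]; exact hA k (by omega)
    · subst hk
      rw [mix1, show 3 * k + 1 + 1 = 3 * k + 2 by ring, mix2,
        show 3 * k + 1 + 2 = 3 * (k + 1) by ring, mix0]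
      exact hB k (by omega)
    · subst hk
      rw [mix2, show 3 * k + 2 + 1 = 3 * (k + 1) by ring, mix0,
        show 3 * k + 2 + 2 = 3 * (k + 1) + 1 by ring, mix1]
      exact hC k (by omega)
  · rw [show 3 * M - 2 = 3 * (M - 1) + 1 by omega, show 3 * M - 1 = 3 * (M - 1) + 2 by omega,
      mix1, mix2, show (0 : ℕ) = 3 * 0 by rfl, mix0]
    simpa using hD
  · rw [show 3 * M - 1 = 3 * (M - 1) + 2 by omega,
      mix2, show (0 : ℕ) = 3 * 0 by rfl, mix0, show (1 : ℕ) = 3 * 0 + 1 by rfl, mix1]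
    simpa using hE

theorem triple1 (M : ℕ) (hM : 1 ≤ M) (s δ : ℤ)
    (hA : ∀ k < M, Bd s δ (X k + Y k + Z k))
    (hB : ∀ k < M, Bd s δ (Y k + Z k + X (k + 1)))
    (hC : ∀ k, k + 1 < M → Bd s δ (Z k + X (k + 1) + Y (k + 1)))
    (hD : Bd s δ (Z (M - 1) + X M + X 0)) (hE : Bd s δ (X M + X 0 + Y 0)) :
    TripleOK (3 * M + 1) s δ (mix X Y Z) := by
  refine ⟨?_, ?_, ?_⟩
  · intro j hj
    obtain ⟨k, hk | hk | hk⟩ : ∃ k, j = 3 * k ∨ j = 3 * k + 1 ∨ j = 3 * k + 2 :=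
      ⟨j / 3, by omega⟩
    · subst hk
      rw [mix0, mix1, mix2]; exact hA k (by omega)
    · subst hk
      rw [mix1, show 3 * k + 1 + 1 = 3 * k + 2 by ring, mix2,
        show 3 * k + 1 + 2 = 3 * (k + 1) by ring, mix0]
      exact hB k (by omega)
    · subst hk
      rw [mix2, show 3 * k + 2 + 1 = 3 * (k + 1) by ring, mix0,
        show 3 * k + 2 + 2 = 3 * (k + 1) + 1 by ring, mix1]
      exact hC k (by omega)
  · rw [show 3 * M + 1 - 2 = 3 * (M - 1) + 2 by omega, show 3 * M + 1 - 1 = 3 * M by omega,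
      mix0, mix2, show (0 : ℕ) = 3 * 0 by rfl, mix0]
    simpa using hD
  · rw [show 3 * M + 1 - 1 = 3 * M by omega,
      mix0, show (0 : ℕ) = 3 * 0 by rfl, mix0, show (1 : ℕ) = 3 * 0 + 1 by rfl, mix1]
    simpa using hE

theorem triple2 (M : ℕ) (s δ : ℤ)
    (hA : ∀ k < M, Bd s δ (X k + Y k + Z k))
    (hB : ∀ k < M, Bd s δ (Y k + Z k + X (k + 1)))
    (hC : ∀ k < M, Bd s δ (Z k + X (k + 1) + Y (k + 1)))
    (hD : Bd s δ (X M + Y M + X 0)) (hE : Bd s δ (Y M + X 0 + Y 0)) :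
    TripleOK (3 * M + 2) s δ (mix X Y Z) := by
  refine ⟨?_, ?_, ?_⟩
  · intro j hj
    obtain ⟨k, hk | hk | hk⟩ : ∃ k, j = 3 * k ∨ j = 3 * k + 1 ∨ j = 3 * k + 2 :=
      ⟨j / 3, by omega⟩
    · subst hk
      rw [mix0, mix1, mix2]; exact hA k (by omega)
    · subst hk
      rw [mix1, show 3 * k + 1 + 1 = 3 * k + 2 by ring, mix2,
        show 3 * k + 1 + 2 = 3 * (k + 1) by ring, mix0]
      exact hB k (by omega)
    · subst hk
      rw [mix2, show 3 * k + 2 + 1 = 3 * (k + 1) by ring, mix0,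
        show 3 * k + 2 + 2 = 3 * (k + 1) + 1 by ring, mix1]
      exact hC k (by omega)
  · rw [show 3 * M + 2 - 2 = 3 * M by omega, show 3 * M + 2 - 1 = 3 * M + 1 by omega,
      mix0, mix1, show (0 : ℕ) = 3 * 0 by rfl, mix0]
    simpa using hD
  · rw [show 3 * M + 2 - 1 = 3 * M + 1 by omega,
      mix1, show (0 : ℕ) = 3 * 0 by rfl, mix0, show (1 : ℕ) = 3 * 0 + 1 by rfl, mix1]
    simpa using hE

/-- Range and injectivity of an interleaving. -/
theorem mix_range (N : ℕ) (m : ℤ) (hX : ∀ k, 3 * k < N → 1 ≤ X k ∧ X k ≤ m)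
    (hY : ∀ k, 3 * k + 1 < N → 1 ≤ Y k ∧ Y k ≤ m) (hZ : ∀ k, 3 * k + 2 < N → 1 ≤ Z k ∧ Z k ≤ m) :
    ∀ p < N, 1 ≤ mix X Y Z p ∧ mix X Y Z p ≤ m := by
  intro j hj
  obtain ⟨k, hk | hk | hk⟩ : ∃ k, j = 3 * k ∨ j = 3 * k + 1 ∨ j = 3 * k + 2 := ⟨j / 3, by omega⟩
  · subst hk; rw [mix0]; exact hX k hj
  · subst hk; rw [mix1]; exact hY k hj
  · subst hk; rw [mix2]; exact hZ k hj

theorem mix_inj (N : ℕ) (hXX : ∀ k l, 3 * k < N → 3 * l < N → X k = X l → k = l)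
    (hYY : ∀ k l, 3 * k + 1 < N → 3 * l + 1 < N → Y k = Y l → k = l)
    (hZZ : ∀ k l, 3 * k + 2 < N → 3 * l + 2 < N → Z k = Z l → k = l)
    (hXY : ∀ k l, 3 * k < N → 3 * l + 1 < N → X k ≠ Y l)
    (hXZ : ∀ k l, 3 * k < N → 3 * l + 2 < N → X k ≠ Z l)
    (hYZ : ∀ k l, 3 * k + 1 < N → 3 * l + 2 < N → Y k ≠ Z l) :
    ∀ p < N, ∀ q < N, mix X Y Z p = mix X Y Z q → p = q := by
  intro p hp q hq h
  obtain ⟨k, hk | hk | hk⟩ : ∃ k, p = 3 * k ∨ p = 3 * k + 1 ∨ p = 3 * k + 2 := ⟨p / 3, by omega⟩ <;>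
  obtain ⟨l, hl | hl | hl⟩ : ∃ l, q = 3 * l ∨ q = 3 * l + 1 ∨ q = 3 * l + 2 :=
    ⟨q / 3, by omega⟩ <;> subst hk <;> subst hl <;>
    simp only [mix0, mix1, mix2] at h
  · rw [hXX k l hp hq h]
  · exact absurd h (hXY k l hp hq)
  · exact absurd h (hXZ k l hp hq)
  · exact absurd h.symm (hXY l k hq hp)
  · rw [hYY k l hp hq h]
  · exact absurd h (hYZ k l hp hq)
  · exact absurd h.symm (hXZ l k hq hp)
  · exact absurd h.symm (hYZ l k hq hp)
  · rw [hZZ k l hp hq h]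

theorem mix_inj3 (N : ℕ) (hXX : ∀ k l, 3 * k < N → 3 * l < N → X k = X l → k = l)
    (hYY : ∀ k l, 3 * k + 1 < N → 3 * l + 1 < N → Y k = Y l → k = l)
    (hZZ : ∀ k l, 3 * k + 2 < N → 3 * l + 2 < N → Z k = Z l → k = l) :
    ∀ p < N, ∀ q < N, p % 3 = q % 3 → mix X Y Z p = mix X Y Z q → p = q := by
  intro p hp q hq hm h
  obtain ⟨k, hk | hk | hk⟩ : ∃ k, p = 3 * k ∨ p = 3 * k + 1 ∨ p = 3 * k + 2 := ⟨p / 3, by omega⟩ <;>
  obtain ⟨l, hl | hl | hl⟩ : ∃ l, q = 3 * l ∨ q = 3 * l + 1 ∨ q = 3 * l + 2 :=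
    ⟨q / 3, by omega⟩ <;> subst hk <;> subst hl <;>
    simp only [mix0, mix1, mix2] at h
  · rw [hXX k l hp hq h]
  · omega
  · omega
  · omega
  · rw [hYY k l hp hq h]
  · omega
  · omega
  · omega
  · rw [hZZ k l hp hq h]

/-- The common first arm `2, 4, 5, 7, 8, …`. -/
def armX (k : ℕ) : ℤ := 2 + ((3 * k + 1) / 2 : ℕ)

/-! ### `m = 6 i + 1`, `i ≥ 1` -/

def Y1 (i k : ℕ) : ℤ := if k + 2 ≤ 2 * i then 6 * (i : ℤ) - 3 - 3 * k else 1

def Z1 (i k : ℕ) : ℤ := if k + 3 ≤ 2 * i then 3 * (i : ℤ) + 4 + (3 * k / 2 : ℕ)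
    else if k + 2 = 2 * i then 6 * (i : ℤ) else 6 * (i : ℤ) + 1

theorem goodU1 (i : ℕ) (hi : 1 ≤ i) : GoodU (6 * i + 1) 4 := by
  have e : 6 * i + 1 = 3 * (2 * i) + 1 := by ring
  refine goodU_of _ (by omega) 4 (mix armX (Y1 i) (Z1 i)) ?_ ?_ ?_
  · apply mix_range <;> intro k hk <;> simp only [armX, Y1, Z1] <;> push_cast <;>
      (try split_ifs) <;> omega
  · apply mix_inj <;> intro k l hk hl <;> simp only [armX, Y1, Z1] <;>
      (try split_ifs) <;> omega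
  · rw [e]
    apply triple1 (2 * i) (by omega)
    · intro k hk; simp only [armX, Y1, Z1, Bd]; push_cast; split_ifs <;> omega
    · intro k hk; simp only [armX, Y1, Z1, Bd]; push_cast; split_ifs <;> omega
    · intro k hk; simp only [armX, Y1, Z1, Bd]; push_cast; split_ifs <;> omega
    · simp only [armX, Y1, Z1, Bd]; push_cast; split_ifs <;> omega
    · simp only [armX, Y1, Z1, Bd]; push_cast; split_ifs <;> omega

/-! ### `m = 6 i + 5`, `i ≥ 1` -/

def Y5 (i k : ℕ) : ℤ := if k + 2 ≤ 2 * i then 3 * (i : ℤ) + 5 + ((3 * k + 1) / 2 : ℕ)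
  else if k + 1 = 2 * i then 6 * (i : ℤ) + 3 else if k = 2 * i then 6 * (i : ℤ) + 5
  else 6 * (i : ℤ) + 4

def Z5 (i k : ℕ) : ℤ := if k + 1 ≤ 2 * i then 6 * (i : ℤ) - 3 * k else 1

theorem goodU5 (i : ℕ) (hi : 1 ≤ i) : GoodU (6 * i + 5) 4 := by
  have e : 6 * i + 5 = 3 * (2 * i + 1) + 2 := by ring
  refine goodU_of _ (by omega) 4 (mix armX (Y5 i) (Z5 i)) ?_ ?_ ?_
  · apply mix_range <;> intro k hk <;> simp only [armX, Y5, Z5] <;> push_cast <;>
      (try split_ifs) <;> omega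
  · apply mix_inj <;> intro k l hk hl <;> simp only [armX, Y5, Z5] <;>
      (try split_ifs) <;> omega
  · rw [e]
    apply triple2 (2 * i + 1)
    · intro k hk; simp only [armX, Y5, Z5, Bd]; push_cast; split_ifs <;> omega
    · intro k hk; simp only [armX, Y5, Z5, Bd]; push_cast; split_ifs <;> omega
    · intro k hk; simp only [armX, Y5, Z5, Bd]; push_cast; split_ifs <;> omega
    · simp only [armX, Y5, Bd]; push_cast; split_ifs <;> omega
    · simp only [armX, Y5, Bd]; push_cast; split_ifs <;> omega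

/-! ### `m = 6 i + 4`, `i ≥ 0` -/

def Y4 (i k : ℕ) : ℤ := if k + 1 ≤ 2 * i then 6 * (i : ℤ) - 3 * k else 1

def Z4 (i k : ℕ) : ℤ := if k + 1 ≤ 2 * i then 3 * (i : ℤ) + 5 + ((3 * k + 1) / 2 : ℕ)
  else 6 * (i : ℤ) + 3

theorem goodU4 (i : ℕ) : GoodU (6 * i + 4) 3 := by
  have e : 6 * i + 4 = 3 * (2 * i + 1) + 1 := by ring
  refine goodU_of _ (by omega) 3 (mix armX (Y4 i) (Z4 i)) ?_ ?_ ?_
  · apply mix_range <;> intro k hk <;> simp only [armX, Y4, Z4] <;> push_cast <;>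
      (try split_ifs) <;> omega
  · apply mix_inj <;> intro k l hk hl <;> simp only [armX, Y4, Z4] <;>
      (try split_ifs) <;> omega
  · rw [e]
    apply triple1 (2 * i + 1) (by omega)
    · intro k hk; simp only [armX, Y4, Z4, Bd]; push_cast; split_ifs <;> omega
    · intro k hk; simp only [armX, Y4, Z4, Bd]; push_cast; split_ifs <;> omega
    · intro k hk; simp only [armX, Y4, Z4, Bd]; push_cast; split_ifs <;> omega
    · simp only [armX, Z4, Bd]; push_cast; split_ifs <;> omega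
    · simp only [armX, Y4, Bd]; push_cast; split_ifs <;> omega

/-! ### `m = 6 i + 2`, `i ≥ 1` -/

def Y2 (i k : ℕ) : ℤ := if k + 1 ≤ 2 * i then 3 * (i : ℤ) + 4 + (3 * k / 2 : ℕ)
  else 6 * (i : ℤ)

def Z2 (i k : ℕ) : ℤ := if k + 2 ≤ 2 * i then 6 * (i : ℤ) - 3 - 3 * k else 1

theorem goodU2 (i : ℕ) (hi : 1 ≤ i) : GoodU (6 * i + 2) 3 := by
  have e : 6 * i + 2 = 3 * (2 * i) + 2 := by ring
  refine goodU_of _ (by omega) 3 (mix armX (Y2 i) (Z2 i)) ?_ ?_ ?_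
  · apply mix_range <;> intro k hk <;> simp only [armX, Y2, Z2] <;> push_cast <;>
      (try split_ifs) <;> omega
  · apply mix_inj <;> intro k l hk hl <;> simp only [armX, Y2, Z2] <;>
      (try split_ifs) <;> omega
  · rw [e]
    apply triple2 (2 * i)
    · intro k hk; simp only [armX, Y2, Z2, Bd]; push_cast; split_ifs <;> omega
    · intro k hk; simp only [armX, Y2, Z2, Bd]; push_cast; split_ifs <;> omega
    · intro k hk; simp only [armX, Y2, Z2, Bd]; push_cast; split_ifs <;> omega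
    · simp only [armX, Y2, Bd]; push_cast; split_ifs <;> omega
    · simp only [armX, Y2, Bd]; push_cast; split_ifs <;> omega

/-! ### `m = 6 i`, `i ≥ 1` -/

def X0 (i k : ℕ) : ℤ := if k + 2 ≤ 4 * i then 2 + ((3 * k + 1) / 2 : ℕ)
  else if k + 2 ≤ 6 * i then 18 * (i : ℤ) - 3 - 3 * k else 1

def Y0 (i k : ℕ) : ℤ := if k + 2 ≤ 2 * i then 3 * (i : ℤ) + 3 + (3 * k / 2 : ℕ)
  else if k + 2 ≤ 4 * i then 12 * (i : ℤ) - 4 - 3 * k
  else if k + 1 = 4 * i then 1 else 3 + (3 * (k - 4 * i) / 2 : ℕ)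

def Z0 (i k : ℕ) : ℤ := if k + 2 ≤ 2 * i then 6 * (i : ℤ) - 5 - 3 * k
  else if k + 2 ≤ 6 * i then 2 + (3 * (k + 1 - 2 * i) / 2 : ℕ) else 6 * (i : ℤ) - 2

theorem good0 (i : ℕ) (hi : 1 ≤ i) : Good (6 * i) 3 := by
  refine good_of_W _ (by omega) 3 (mix (X0 i) (Y0 i) (Z0 i)) ?_ ?_ ?_
  · apply mix_range <;> intro k hk <;> simp only [X0, Y0, Z0] <;> push_cast <;>
      (try split_ifs) <;> omega
  · apply mix_inj3 <;> intro k l hk hl <;> simp only [X0, Y0, Z0] <;>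
      (try split_ifs) <;> omega
  · apply triple0 (6 * i) (by omega)
    · intro k hk; simp only [X0, Y0, Z0, Bd]; push_cast; split_ifs <;> omega
    · intro k hk; simp only [X0, Y0, Z0, Bd]; push_cast; split_ifs <;> omega
    · intro k hk; simp only [X0, Y0, Z0, Bd]; push_cast; split_ifs <;> omega
    · simp only [X0, Y0, Z0, Bd]; push_cast; split_ifs <;> omega
    · simp only [X0, Y0, Z0, Bd]; push_cast; split_ifs <;> omega

/-! ### `m = 6 i + 3`, `i ≥ 2` -/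

def X3 (i k : ℕ) : ℤ := if k ≤ 4 * i then 2 + ((3 * k + 1) / 2 : ℕ)
  else if k ≤ 6 * i + 1 then 18 * (i : ℤ) + 6 - 3 * k else 1

def Y3 (i k : ℕ) : ℤ := if k + 2 ≤ 2 * i then 3 * (i : ℤ) + 4 + ((3 * k + 1) / 2 : ℕ)
  else if k + 1 = 2 * i then 6 * (i : ℤ) + 2
  else if k = 2 * i then 6 * (i : ℤ) + 3
  else if k + 1 ≤ 4 * i then 12 * (i : ℤ) + 2 - 3 * k
  else if k = 4 * i then 3 else if k = 4 * i + 1 then 1 else if k = 4 * i + 2 then 2
  else if k = 4 * i + 3 then 4 else 6 + (3 * (k - 4 * i - 4) / 2 : ℕ)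

def Z3 (i k : ℕ) : ℤ := if k + 2 ≤ 2 * i then 6 * (i : ℤ) - 2 - 3 * k
  else if k + 1 = 2 * i then 2 else if k = 2 * i then 1 else if k = 2 * i + 1 then 3
  else if k + 1 ≤ 6 * i then 5 + (3 * (k - 2 * i - 2) / 2 : ℕ)
  else if k = 6 * i then 6 * (i : ℤ) + 1
  else if k = 6 * i + 1 then 6 * (i : ℤ) + 3 else 6 * (i : ℤ) + 2

theorem good3 (i : ℕ) (hi : 2 ≤ i) : Good (6 * i + 3) 4 := by
  refine good_of_W _ (by omega) 4 (mix (X3 i) (Y3 i) (Z3 i)) ?_ ?_ ?_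
  · apply mix_range <;> intro k hk <;> simp only [X3, Y3, Z3] <;> push_cast <;>
      (try split_ifs) <;> omega
  · apply mix_inj3 <;> intro k l hk hl <;> simp only [X3, Y3, Z3] <;>
      (try split_ifs) <;> omega
  · apply triple0 (6 * i + 3) (by omega)
    · intro k hk; simp only [X3, Y3, Z3, Bd]; push_cast; split_ifs <;> omega
    · intro k hk; simp only [X3, Y3, Z3, Bd]; push_cast; split_ifs <;> omega
    · intro k hk; simp only [X3, Y3, Z3, Bd]; push_cast; split_ifs <;> omega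
    · simp only [X3, Y3, Z3, Bd]; push_cast; split_ifs <;> omega
    · simp only [X3, Y3, Z3, Bd]; push_cast; split_ifs <;> omega

/-! ### The small cases `m = 1, 2, 3, 5, 9` -/

theorem goodm1 : Good 1 0 :=
  ⟨fun _ => 1, fun _ => rfl, fun _ => ⟨le_rfl, by norm_num⟩, fun j hj j' hj' h _ => by omega,
    fun _ => by constructor <;> norm_num⟩

/-- A list read as a sequence. -/
def ofList (l : List ℤ) (p : ℕ) : ℤ := l.getD p 0

theorem goodUm2 : GoodU 2 1 := by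
  refine goodU_of 2 (by norm_num) 1 (ofList [1, 2]) ?_ ?_ ?_
  · decide
  · decide
  · refine ⟨?_, ?_, ?_⟩
    · intro j hj; omega
    · constructor <;> decide
    · constructor <;> decide

theorem goodm3 : Good 3 2 := by
  refine good_of_W 3 (by norm_num) 2 (ofList [2, 3, 1, 3, 1, 3, 1, 2, 2]) ?_ ?_ ?_
  · decide
  · decide
  · refine ⟨?_, ?_, ?_⟩
    · intro j hj
      have : ∀ j < 7, Bd (3 * (((3 : ℕ) : ℤ) + 1)) 2 (ofList [2, 3, 1, 3, 1, 3, 1, 2, 2] j +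
        ofList [2, 3, 1, 3, 1, 3, 1, 2, 2] (j + 1) + ofList [2, 3, 1, 3, 1, 3, 1, 2, 2] (j + 2)) := by
        unfold Bd; decide
      exact this j (by omega)
    · constructor <;> decide
    · constructor <;> decide

theorem goodUm5 : GoodU 5 2 := by
  refine goodU_of 5 (by norm_num) 2 (ofList [1, 5, 2, 3, 4]) ?_ ?_ ?_
  · decide
  · decide
  · refine ⟨?_, ?_, ?_⟩
    · intro j hj
      have : ∀ j < 3, Bd (3 * (((5 : ℕ) : ℤ) + 1)) 2 (ofList [1, 5, 2, 3, 4] j +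
        ofList [1, 5, 2, 3, 4] (j + 1) + ofList [1, 5, 2, 3, 4] (j + 2)) := by
        unfold Bd; decide
      exact this j (by omega)
    · constructor <;> decide
    · constructor <;> decide

/-- The wave for `m = 9`. -/
def l9 : List ℤ := [1, 7, 5, 3, 9, 4, 4, 8, 1, 7, 6, 2, 9, 5, 3, 8, 2, 6, 6, 1, 7, 5, 3, 8, 2, 4, 9]

theorem goodm9 : Good 9 4 := by
  refine good_of_W 9 (by norm_num) 4 (ofList l9) ?_ ?_ ?_
  · decide
  · decide
  · refine ⟨?_, ?_, ?_⟩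
    · intro j hj
      have : ∀ j < 25, Bd (3 * (((9 : ℕ) : ℤ) + 1)) 4 (ofList l9 j +
        ofList l9 (j + 1) + ofList l9 (j + 2)) := by
        unfold Bd; decide
      exact this j (by omega)
    · constructor <;> decide
    · constructor <;> decide

/-- Twice the deviation for `m`. -/
def dev (m : ℕ) : ℤ :=
  if m = 1 then 0 else if m = 2 then 1 else if m = 3 ∨ m = 5 then 2
  else if m % 2 = 0 then 3 else 4

theorem good_all (m : ℕ) (hm : 1 ≤ m) : Good m (dev m) := by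
  by_cases h1 : m = 1
  · subst h1; exact goodm1
  by_cases h2 : m = 2
  · subst h2; exact good_of_goodU 2 (by norm_num) (by norm_num) 1 goodUm2
  by_cases h3 : m = 3
  · subst h3; exact goodm3
  by_cases h5 : m = 5
  · subst h5; exact good_of_goodU 5 (by norm_num) (by norm_num) 2 goodUm5
  by_cases h9 : m = 9
  · subst h9; exact goodm9
  unfold dev
  rw [if_neg h1, if_neg h2, if_neg (by tauto)]
  obtain ⟨i, hi⟩ : ∃ i, m = 6 * i ∨ m = 6 * i + 1 ∨ m = 6 * i + 2 ∨ m = 6 * i + 3 ∨ m = 6 * i + 4 ∨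
    m = 6 * i + 5 := ⟨m / 6, by omega⟩
  rcases hi with rfl | rfl | rfl | rfl | rfl | rfl
  · rw [if_pos (by omega)]; exact good0 i (by omega)
  · rw [if_neg (by omega)]; exact good_of_goodU _ (by omega) (by omega) 4 (goodU1 i (by omega))
  · rw [if_pos (by omega)]; exact good_of_goodU _ (by omega) (by omega) 3 (goodU2 i (by omega))
  · rw [if_neg (by omega)]; exact good3 i (by omega)
  · rw [if_pos (by omega)]; exact good_of_goodU _ (by omega) (by omega) 3 (goodU4 i)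
  · rw [if_neg (by omega)]; exact good_of_goodU _ (by omega) (by omega) 4 (goodU5 i (by omega))

theorem GoodU.mono {m : ℕ} {δ δ' : ℤ} (h : GoodU m δ) (hd : δ ≤ δ') : GoodU m δ' := by
  obtain ⟨U, h1, h2, h3, h4⟩ := h
  exact ⟨U, h1, h2, h3, fun j => ⟨by have := (h4 j).1; linarith, by have := (h4 j).2; linarith⟩⟩

theorem goodU_all (m : ℕ) (hm : 4 ≤ m) (h3 : ¬ 3 ∣ m) :
    GoodU m (if m % 2 = 0 then 3 else 4) := by
  by_cases h5 : m = 5
  · subst h5; exact goodUm5.mono (by norm_num)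
  obtain ⟨i, hi⟩ : ∃ i, m = 6 * i + 1 ∨ m = 6 * i + 2 ∨ m = 6 * i + 4 ∨ m = 6 * i + 5 :=
    ⟨m / 6, by omega⟩
  rcases hi with rfl | rfl | rfl | rfl
  · rw [if_neg (by omega)]; exact goodU1 i (by omega)
  · rw [if_pos (by omega)]; exact goodU2 i (by omega)
  · rw [if_pos (by omega)]; exact goodU4 i
  · rw [if_neg (by omega)]; exact goodU5 i (by omega)

end Pool.Agent.CycNS
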