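import Mathlib
import Pool.Agent.CycNS.Cycle
import Pool.Agent.CycNS.Wave

/-!
# Closed neighbourhood sums of graphs
-/

namespace Pool.Agent.CycNS

open Finset

variable {V : Type*} [Fintype V]

/-- The sum `f(N[v])` of the labels on the closed neighbourhood of `v`; a labeling is a bijection
`f` of the vertices with `Fin n`, `n = |V|`, and the label of `u` is `f u + 1 ∈ {1, …, n}`. -/
noncomputable def nsum (G : SimpleGraph V) (f : V ≃ Fin (Fintype.card V)) (v : V) : ℕ := by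
  classical exact ∑ u with (u = v ∨ G.Adj v u), ((f u : ℕ) + 1)

/-- `M(f) = max_v f(N[v])`. -/
noncomputable def maxS (G : SimpleGraph V) (f : V ≃ Fin (Fintype.card V)) : ℕ :=
  ⨆ v, nsum G f v

/-- `m(f) = min_v f(N[v])`. -/
noncomputable def minS (G : SimpleGraph V) (f : V ≃ Fin (Fintype.card V)) : ℕ :=
  ⨅ v, nsum G f v

/-- `NS[G] = min_f M(f)`. -/
noncomputable def NS (G : SimpleGraph V) : ℕ := ⨅ f : V ≃ Fin (Fintype.card V), maxS G f

/-- `NS⁻[G] = max_f m(f)`. -/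
noncomputable def NSm (G : SimpleGraph V) : ℕ := ⨆ f : V ≃ Fin (Fintype.card V), minS G f

/-- `NSˢᵖ[G] = min_f (M(f) - m(f))`. -/
noncomputable def NSsp (G : SimpleGraph V) : ℕ :=
  ⨅ f : V ≃ Fin (Fintype.card V), (maxS G f - minS G f)

theorem le_maxS (G : SimpleGraph V) (f) (v : V) : nsum G f v ≤ maxS G f :=
  le_ciSup (Finite.bddAbove_range _) v

theorem minS_le (G : SimpleGraph V) (f) (v : V) : minS G f ≤ nsum G f v :=
  ciInf_le (OrderBot.bddBelow _) v

theorem exists_maxS [Nonempty V] (G : SimpleGraph V) (f) : ∃ v, nsum G f v = maxS G f :=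
  exists_eq_ciSup_of_finite

theorem exists_minS [Nonempty V] (G : SimpleGraph V) (f) : ∃ v, nsum G f v = minS G f :=
  exists_eq_ciInf_of_finite

/-- An enumeration of a graph as `k` disjoint cycles of length `t`. -/
structure CycEnum (G : SimpleGraph V) (k t : ℕ) where
  x : Fin k → ℕ → V
  per : ∀ c j, x c (j + t) = x c j
  inj : ∀ c c' i j, i < t → j < t → x c i = x c' j → c = c' ∧ i = j
  surj : ∀ v, ∃ c j, j < t ∧ x c j = v
  nb : ∀ c j u, (u = x c (j + 1) ∨ G.Adj (x c (j + 1)) u) ↔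
    u = x c j ∨ u = x c (j + 1) ∨ u = x c (j + 2)

namespace CycEnum

variable {G : SimpleGraph V} {k t : ℕ} (E : CycEnum G k t)
include E

theorem sum_eq (g : V → ℤ) : ∑ v, g v = ∑ c, ∑ j ∈ range t, g (E.x c j) := by
  classical
  rw [← Finset.sum_product' (f := fun c j => g (E.x c j))]
  symm
  refine Finset.sum_bij (fun p _ => E.x p.1 p.2) (fun _ _ => Finset.mem_univ _) ?_ ?_ ?_
  · rintro ⟨c, i⟩ hi ⟨c', j⟩ hj h
    simp only [Finset.mem_product, Finset.mem_range] at hi hj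
    obtain ⟨h1, h2⟩ := E.inj c c' i j hi.2 hj.2 h
    rw [h1, h2]
  · intro v _
    obtain ⟨c, j, hj, h⟩ := E.surj v
    exact ⟨(c, j), by simp [hj], h⟩
  · intro _ _; rfl

theorem card_eq : Fintype.card V = k * t := by
  have h := E.sum_eq (fun _ => 1)
  simp only [Finset.sum_const, Finset.card_univ, Finset.card_range, Fintype.card_fin,
    nsmul_eq_mul, mul_one] at h
  exact_mod_cast h

theorem pmod (c : Fin k) (j : ℕ) : E.x c j = E.x c (j % t) := per_mod t (E.x c) (E.per c) j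

theorem inj' (ht : 0 < t) (c : Fin k) {i j : ℕ} (h : E.x c i = E.x c j) : i ≡ j [MOD t] := by
  rw [E.pmod c i, E.pmod c j] at h
  exact (E.inj c c _ _ (Nat.mod_lt _ ht) (Nat.mod_lt _ ht) h).2

theorem ne1 (ht : 3 ≤ t) (c : Fin k) (j : ℕ) : E.x c j ≠ E.x c (j + 1) := by
  intro h
  have := E.inj' (by omega) c h
  have h2 : t ∣ 1 := by
    have := (Nat.modEq_iff_dvd' (Nat.le_add_right j 1)).1 this
    simpa using this
  have := Nat.le_of_dvd (by norm_num) h2
  omega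

theorem ne2 (ht : 3 ≤ t) (c : Fin k) (j : ℕ) : E.x c j ≠ E.x c (j + 2) := by
  intro h
  have := E.inj' (by omega) c h
  have h2 : t ∣ 2 := by
    have := (Nat.modEq_iff_dvd' (Nat.le_add_right j 2)).1 this
    simpa using this
  have := Nat.le_of_dvd (by norm_num) h2
  omega

/-- The label at place `j` of cycle `c`. -/
def F (f : V ≃ Fin (Fintype.card V)) (c : Fin k) (j : ℕ) : ℤ := (f (E.x c j) : ℕ) + 1

theorem F_per (f) (c : Fin k) (j : ℕ) : E.F f c (j + t) = E.F f c j := by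
  unfold F; rw [E.per]

theorem F_inj (f) (c : Fin k) : ∀ i < t, ∀ j < t, E.F f c i = E.F f c j → i = j := by
  intro i hi j hj h
  unfold F at h
  have h1 : (f (E.x c i) : ℕ) = (f (E.x c j) : ℕ) := by exact_mod_cast add_right_cancel h
  have h2 := f.injective (Fin.ext h1)
  exact (E.inj c c i j hi hj h2).2

theorem nsum_eq (ht : 3 ≤ t) (f) (c : Fin k) (j : ℕ) :
    (nsum G f (E.x c (j + 1)) : ℤ) = E.F f c j + E.F f c (j + 1) + E.F f c (j + 2) := by
  classical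
  unfold nsum
  have hset : (Finset.univ.filter fun u => u = E.x c (j + 1) ∨ G.Adj (E.x c (j + 1)) u)
      = {E.x c j, E.x c (j + 1), E.x c (j + 2)} := by
    ext u
    simp only [Finset.mem_filter, Finset.mem_univ, true_and, Finset.mem_insert,
      Finset.mem_singleton]
    exact E.nb c j u
  rw [hset]
  have h1 : E.x c j ∉ ({E.x c (j + 1), E.x c (j + 2)} : Finset V) := by
    simp only [Finset.mem_insert, Finset.mem_singleton, not_or]
    exact ⟨E.ne1 ht c j, E.ne2 ht c j⟩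
  have h2 : E.x c (j + 1) ∉ ({E.x c (j + 2)} : Finset V) := by
    simp only [Finset.mem_singleton]
    exact E.ne1 ht c (j + 1)
  rw [Finset.sum_insert h1, Finset.sum_insert h2, Finset.sum_singleton]
  unfold F
  push_cast
  ring

/-- Every vertex is `x c (j+1)` for some `c, j`. -/
theorem surj' (ht : 0 < t) (v : V) : ∃ c j, E.x c (j + 1) = v := by
  obtain ⟨c, j, hj, h⟩ := E.surj v
  refine ⟨c, j + (t - 1), ?_⟩
  rw [show j + (t - 1) + 1 = j + t by omega, E.per, h]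

/-- The sum of all labels. -/
theorem sum_F (f) : 2 * ∑ c, ∑ j ∈ range t, E.F f c j = (k * t : ℤ) * (k * t + 1) := by
  have h1 := E.sum_eq (fun v => (f v : ℕ) + 1)
  have h2 : ∑ v, (((f v : ℕ) : ℤ) + 1) = ∑ i : Fin (Fintype.card V), (((i : ℕ) : ℤ) + 1) :=
    Equiv.sum_comp f (fun i : Fin (Fintype.card V) => ((i : ℕ) : ℤ) + 1)
  have h3 : ∀ n : ℕ, 2 * ∑ i : Fin n, (((i : ℕ) : ℤ) + 1) = n * (n + 1) := by
    intro n
    rw [Fin.sum_univ_eq_sum_range (fun i => ((i : ℕ) : ℤ) + 1) n]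
    induction n with
    | zero => simp
    | succ n ih => rw [Finset.sum_range_succ, mul_add, ih]; push_cast; ring
  have h4 := h3 (Fintype.card V)
  have h5 : ((Fintype.card V : ℕ) : ℤ) = (k : ℤ) * t := by
    have := E.card_eq; exact_mod_cast this
  rw [← h2, h1, h5] at h4
  unfold F
  rw [h4]

theorem sum_S (f) (θ : ℤ) :
    2 * ∑ c, ∑ j ∈ range t, (E.F f c j + E.F f c (j + 1) + E.F f c (j + 2) - θ)
      = 3 * (k * t) * (k * t + 1) - 2 * (k * t) * θ := by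
  have h : ∀ c, ∑ j ∈ range t, (E.F f c j + E.F f c (j + 1) + E.F f c (j + 2) - θ)
      = 3 * ∑ j ∈ range t, E.F f c j - t * θ := by
    intro c
    rw [Finset.sum_sub_distrib, Finset.sum_add_distrib, Finset.sum_add_distrib,
      sum_shift t (E.F f c) (E.F_per f c) 1, sum_shift t (E.F f c) (E.F_per f c) 2]
    simp only [Finset.sum_const, Finset.card_range, nsmul_eq_mul]
    ring
  rw [Finset.sum_congr rfl (fun c _ => h c), Finset.sum_sub_distrib, ← Finset.mul_sum]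
  simp only [Finset.sum_const, Finset.card_univ, Fintype.card_fin, nsmul_eq_mul]
  have := E.sum_F f
  linear_combination 3 * this

/-- The labeling `n + 1 - f`. -/
def rev (f : V ≃ Fin (Fintype.card V)) : V ≃ Fin (Fintype.card V) := f.trans Fin.revPerm

theorem rev_F (f) (c : Fin k) (j : ℕ) : E.F (rev f) c j = (k * t : ℤ) + 1 - E.F f c j := by
  unfold F rev
  have h5 : ((Fintype.card V : ℕ) : ℤ) = (k : ℤ) * t := by
    have := E.card_eq; exact_mod_cast this
  have hlt := (f (E.x c j)).isLt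
  simp only [Equiv.trans_apply, Fin.revPerm_apply, Fin.val_rev]
  rw [Nat.cast_sub (by omega), h5]
  push_cast
  ring

/-! ### Lower bounds -/

theorem S_rev (f) (c : Fin k) (j : ℕ) :
    E.F (rev f) c j + E.F (rev f) c (j + 1) + E.F (rev f) c (j + 2)
      = 3 * ((k * t : ℤ) + 1) - (E.F f c j + E.F f c (j + 1) + E.F f c (j + 2)) := by
  rw [E.rev_F, E.rev_F, E.rev_F]; ring

/-- If all sums are at least `θ` then `2 θ ≤ 3 (n + 1)`. -/
theorem avg (hk : 0 < k) (ht : 0 < t) (f) (θ : ℤ)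
    (h : ∀ c j, θ ≤ E.F f c j + E.F f c (j + 1) + E.F f c (j + 2)) :
    2 * θ ≤ 3 * ((k * t : ℤ) + 1) := by
  have h1 := E.sum_S f θ
  have h2 : 0 ≤ ∑ c, ∑ j ∈ range t, (E.F f c j + E.F f c (j + 1) + E.F f c (j + 2) - θ) :=
    Finset.sum_nonneg (fun c _ => Finset.sum_nonneg (fun j _ => by linarith [h c j]))
  have hn : (0 : ℤ) < (k : ℤ) * t := by positivity
  have h3 : 0 ≤ ((k : ℤ) * t) * (3 * ((k * t : ℤ) + 1) - 2 * θ) := by nlinarith
  have h4 := (mul_nonneg_iff_of_pos_left hn).1 h3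
  linarith

/-- The main inequality. -/
theorem main_ineq (ht : 4 ≤ t) (f) (θ : ℤ)
    (h : ∀ c j, θ ≤ E.F f c j + E.F f c (j + 1) + E.F f c (j + 2)) :
    5 * ((k : ℤ) * t) ≤ 2 * (k * t) * (3 * ((k * t : ℤ) + 1) - 2 * θ) + 18 * k := by
  have h1 : ∀ c : Fin k, 5 * (t : ℤ) ≤
      4 * ∑ j ∈ range t, (E.F f c j + E.F f c (j + 1) + E.F f c (j + 2) - θ) + 18 := by
    intro c
    have := cycle_ineq t ht (E.F f c) (E.F_per f c) (E.F_inj f c) θ (h c)
    split_ifs at this <;> linarith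
  have h2 := Finset.sum_le_sum (fun c (_ : c ∈ Finset.univ) => h1 c)
  simp only [Finset.sum_add_distrib, ← Finset.mul_sum, Finset.sum_const, Finset.card_univ,
    Fintype.card_fin, nsmul_eq_mul] at h2
  have h3 := E.sum_S f θ
  simp only [Finset.sum_sub_distrib, Finset.sum_add_distrib, ← Finset.mul_sum, Finset.sum_const,
    Finset.card_univ, Fintype.card_fin, Finset.card_range, nsmul_eq_mul] at h2 h3
  linarith

/-- Lower bounds for `x = 3 (n + 1) - 2 θ` when all sums are at least `θ`. -/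
theorem low (hk : 0 < k) (ht : 0 < t) (f) (θ : ℤ)
    (h : ∀ c j, θ ≤ E.F f c j + E.F f c (j + 1) + E.F f c (j + 2)) :
    0 ≤ 3 * ((k * t : ℤ) + 1) - 2 * θ ∧ (4 ≤ t → 1 ≤ 3 * ((k * t : ℤ) + 1) - 2 * θ) ∧
    (7 ≤ t → 2 ≤ 3 * ((k * t : ℤ) + 1) - 2 * θ) ∧
    (19 ≤ t → 3 ≤ 3 * ((k * t : ℤ) + 1) - 2 * θ) := by
  have h0 := E.avg hk ht f θ h
  have hk' : (0 : ℤ) < k := by exact_mod_cast hk
  have key : 4 ≤ t → 5 * (t : ℤ) ≤ 2 * t * (3 * ((k * t : ℤ) + 1) - 2 * θ) + 18 := by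
    intro ht4
    have h1 := E.main_ineq ht4 f θ h
    have h2 : (k : ℤ) * (5 * (t : ℤ)) ≤ k * (2 * t * (3 * ((k * t : ℤ) + 1) - 2 * θ) + 18) := by
      linarith
    exact le_of_mul_le_mul_left h2 hk'
  refine ⟨by linarith, ?_, ?_, ?_⟩
  · intro ht4
    by_contra hlt
    have hx : 3 * ((k * t : ℤ) + 1) - 2 * θ = 0 := by linarith [not_le.1 hlt]
    -- all sums are equal
    have h1 := E.sum_S f θ
    have h2 : ∑ c, ∑ j ∈ range t, (E.F f c j + E.F f c (j + 1) + E.F f c (j + 2) - θ) = 0 := by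
      have : 3 * ((k : ℤ) * t) * (k * t + 1) - 2 * (k * t) * θ
        = (k * t) * (3 * ((k * t : ℤ) + 1) - 2 * θ) := by ring
      rw [this, hx, mul_zero] at h1
      linarith
    have h3 : ∀ c : Fin k, ∀ j ∈ range t,
        E.F f c j + E.F f c (j + 1) + E.F f c (j + 2) - θ = 0 := by
      intro c
      have h4 := (Finset.sum_eq_zero_iff_of_nonneg (fun c _ =>
        Finset.sum_nonneg (fun j _ => by linarith [h c j]))).1 h2 c (Finset.mem_univ c)
      exact (Finset.sum_eq_zero_iff_of_nonneg (fun j _ => by linarith [h c j])).1 h4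
    have h4 := h3 ⟨0, hk⟩ 0 (Finset.mem_range.2 (by omega))
    have h5 := h3 ⟨0, hk⟩ 1 (Finset.mem_range.2 (by omega))
    norm_num at h4 h5
    have h6 : E.F f ⟨0, hk⟩ 0 = E.F f ⟨0, hk⟩ 3 := by linarith
    have := E.F_inj f ⟨0, hk⟩ 0 (by omega) 3 (by omega) h6
    omega
  · intro ht7
    have h1 := key (by omega)
    have ht' : (7 : ℤ) ≤ t := by exact_mod_cast ht7
    by_contra hlt
    have hx : 3 * ((k * t : ℤ) + 1) - 2 * θ ≤ 1 := by omega
    nlinarith
  · intro ht19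
    have h1 := key (by omega)
    have ht' : (19 : ℤ) ≤ t := by exact_mod_cast ht19
    by_contra hlt
    have hx : 3 * ((k * t : ℤ) + 1) - 2 * θ ≤ 2 := by omega
    nlinarith

theorem minS_le' (ht : 3 ≤ t) (f) (c : Fin k) (j : ℕ) :
    (minS G f : ℤ) ≤ E.F f c j + E.F f c (j + 1) + E.F f c (j + 2) := by
  rw [← E.nsum_eq ht]
  exact_mod_cast minS_le G f _

theorem le_maxS' (ht : 3 ≤ t) (f) (c : Fin k) (j : ℕ) :
    E.F f c j + E.F f c (j + 1) + E.F f c (j + 2) ≤ (maxS G f : ℤ) := by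
  rw [← E.nsum_eq ht]
  exact_mod_cast le_maxS G f _

theorem nonempty (hk : 0 < k) : Nonempty V := ⟨E.x ⟨0, hk⟩ 0⟩

theorem le_minS' (hk : 0 < k) (ht : 3 ≤ t) (f) (θ : ℤ)
    (h : ∀ c j, θ ≤ E.F f c j + E.F f c (j + 1) + E.F f c (j + 2)) : θ ≤ minS G f := by
  haveI := E.nonempty hk
  obtain ⟨v, hv⟩ := exists_minS G f
  obtain ⟨c, j, rfl⟩ := E.surj' (by omega) v
  rw [← hv, E.nsum_eq ht]
  exact h c j

theorem maxS_le' (hk : 0 < k) (ht : 3 ≤ t) (f) (θ : ℤ)
    (h : ∀ c j, E.F f c j + E.F f c (j + 1) + E.F f c (j + 2) ≤ θ) : maxS G f ≤ θ := by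
  haveI := E.nonempty hk
  obtain ⟨v, hv⟩ := exists_maxS G f
  obtain ⟨c, j, rfl⟩ := E.surj' (by omega) v
  rw [← hv, E.nsum_eq ht]
  exact h c j

/-- The three parameters are squeezed between a lower bound `δ₀` valid for all labelings and the
deviation `δ₁` of one labeling. -/
theorem squeeze (hk : 0 < k) (ht : 3 ≤ t) (δ₀ δ₁ : ℤ)
    (hlow : ∀ f θ, (∀ c j, θ ≤ E.F f c j + E.F f c (j + 1) + E.F f c (j + 2)) →
      δ₀ ≤ 3 * ((k * t : ℤ) + 1) - 2 * θ)
    (hex : ∃ f, ∀ c j, Bd (3 * ((k * t : ℤ) + 1)) δ₁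
      (E.F f c j + E.F f c (j + 1) + E.F f c (j + 2))) :
    (3 * ((k * t : ℤ) + 1) + δ₀ ≤ 2 * (NS G : ℤ) ∧ 2 * (NS G : ℤ) ≤ 3 * ((k * t : ℤ) + 1) + δ₁) ∧
    (3 * ((k * t : ℤ) + 1) - δ₁ ≤ 2 * (NSm G : ℤ) ∧
      2 * (NSm G : ℤ) ≤ 3 * ((k * t : ℤ) + 1) - δ₀) ∧
    (δ₀ ≤ (NSsp G : ℤ) ∧ (NSsp G : ℤ) ≤ δ₁) := by
  haveI : Nonempty (V ≃ Fin (Fintype.card V)) := ⟨Fintype.equivFin V⟩
  haveI := E.nonempty hk
  have hmin : ∀ f, 2 * (minS G f : ℤ) ≤ 3 * ((k * t : ℤ) + 1) - δ₀ := by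
    intro f
    have := hlow f (minS G f) (E.minS_le' ht f)
    linarith
  have hmax : ∀ f, 3 * ((k * t : ℤ) + 1) + δ₀ ≤ 2 * (maxS G f : ℤ) := by
    intro f
    have := hlow (rev f) (3 * ((k * t : ℤ) + 1) - maxS G f) (by
      intro c j
      rw [E.S_rev]
      linarith [E.le_maxS' ht f c j])
    linarith
  obtain ⟨f0, hf0⟩ := hex
  have hmin0 : 3 * ((k * t : ℤ) + 1) - δ₁ ≤ 2 * (minS G f0 : ℤ) := by
    obtain ⟨v, hv⟩ := exists_minS G f0
    obtain ⟨c, j, rfl⟩ := E.surj' (by omega) v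
    rw [← hv, E.nsum_eq ht]
    exact (hf0 c j).1
  have hmax0 : 2 * (maxS G f0 : ℤ) ≤ 3 * ((k * t : ℤ) + 1) + δ₁ := by
    obtain ⟨v, hv⟩ := exists_maxS G f0
    obtain ⟨c, j, rfl⟩ := E.surj' (by omega) v
    rw [← hv, E.nsum_eq ht]
    exact (hf0 c j).2
  have hle : ∀ f, minS G f ≤ maxS G f := by
    intro f
    obtain ⟨v, hv⟩ := exists_minS G f
    rw [← hv]; exact le_maxS G f v
  refine ⟨⟨?_, ?_⟩, ⟨?_, ?_⟩, ?_, ?_⟩
  · obtain ⟨f, hf⟩ : ∃ f, maxS G f = NS G := exists_eq_ciInf_of_finite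
    rw [← hf]; exact hmax f
  · have : NS G ≤ maxS G f0 := ciInf_le (OrderBot.bddBelow _) f0
    have : (NS G : ℤ) ≤ maxS G f0 := by exact_mod_cast this
    linarith
  · have : minS G f0 ≤ NSm G := le_ciSup (Finite.bddAbove_range _) f0
    have : (minS G f0 : ℤ) ≤ NSm G := by exact_mod_cast this
    linarith
  · obtain ⟨f, hf⟩ : ∃ f, minS G f = NSm G := exists_eq_ciSup_of_finite
    rw [← hf]; exact hmin f
  · obtain ⟨f, hf⟩ : ∃ f, maxS G f - minS G f = NSsp G := exists_eq_ciInf_of_finite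
    rw [← hf, Nat.cast_sub (hle f)]
    linarith [hmin f, hmax f]
  · have h1 : NSsp G ≤ maxS G f0 - minS G f0 := ciInf_le (OrderBot.bddBelow _) f0
    have h2 : (NSsp G : ℤ) ≤ maxS G f0 - minS G f0 := by
      rw [← Nat.cast_sub (hle f0)]; exact_mod_cast h1
    linarith

/-- A labeling from prescribed labels. -/
theorem exists_labeling (ht : 0 < t) (lab : Fin k → ℕ → ℤ) (hper : ∀ c j, lab c (j + t) = lab c j)
    (hr : ∀ c j, 1 ≤ lab c j ∧ lab c j ≤ k * t)
    (hinj : ∀ c c' i j, i < t → j < t → lab c i = lab c' j → c = c' ∧ i = j) :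
    ∃ f, ∀ c j, E.F f c j = lab c j := by
  classical
  choose cc jj hjj hx using E.surj
  have hcard : ((Fintype.card V : ℕ) : ℤ) = (k : ℤ) * t := by
    have := E.card_eq; exact_mod_cast this
  let g : V → Fin (Fintype.card V) := fun v => ⟨(lab (cc v) (jj v) - 1).toNat, by
    have := hr (cc v) (jj v)
    omega⟩
  have hg : Function.Injective g := by
    intro v w hvw
    have h1 : (lab (cc v) (jj v) - 1).toNat = (lab (cc w) (jj w) - 1).toNat :=
      congrArg Fin.val hvw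
    have h2 := hr (cc v) (jj v)
    have h3 := hr (cc w) (jj w)
    have h4 : lab (cc v) (jj v) = lab (cc w) (jj w) := by omega
    obtain ⟨h5, h6⟩ := hinj _ _ _ _ (hjj v) (hjj w) h4
    rw [← hx v, ← hx w, h5, h6]
  have hb : Function.Bijective g :=
    (Fintype.bijective_iff_injective_and_card g).2 ⟨hg, by simp⟩
  refine ⟨Equiv.ofBijective g hb, ?_⟩
  intro c j
  have h1 : E.x (cc (E.x c j)) (jj (E.x c j)) = E.x c (j % t) := by rw [hx, ← E.pmod]
  obtain ⟨h2, h3⟩ := E.inj _ _ _ _ (hjj _) (Nat.mod_lt _ ht) h1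
  have h4 : lab c j = lab c (j % t) := per_mod t (lab c) (hper c) j
  unfold F
  show (((g (E.x c j) : Fin _) : ℕ) : ℤ) + 1 = lab c j
  have h5 := hr c (j % t)
  show (((lab (cc (E.x c j)) (jj (E.x c j)) - 1).toNat : ℕ) : ℤ) + 1 = lab c j
  rw [h2, h3, h4]
  omega

end CycEnum

end Pool.Agent.CycNS
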