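import Mathlib
import Pool.Agent.CycNS.Graph

/-!
# Cycle lengths prime to 3: the spread is at least `(3 n - 1) / (4 ⌊(t+1)/3⌋ + 2)`
-/

namespace Pool.Agent.CycNS

open Finset

theorem sum_blocks (F : ℕ → ℤ) (i q : ℕ) :
    ∑ b ∈ range q, (F (i + 3 * b) + F (i + 3 * b + 1) + F (i + 3 * b + 2))
      = ∑ l ∈ range (3 * q), F (l + i) := by
  induction q with
  | zero => simp
  | succ q ih =>
    rw [Finset.sum_range_succ, ih, show 3 * (q + 1) = 3 * q + 1 + 1 + 1 by ring,
      Finset.sum_range_succ, Finset.sum_range_succ, Finset.sum_range_succ]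
    rw [show 3 * q + i = i + 3 * q by ring, show 3 * q + 1 + i = i + 3 * q + 1 by ring,
      show 3 * q + 1 + 1 + i = i + 3 * q + 2 by ring]
    ring

/-- Along a cycle of length prime to 3 the labels differ by at most `⌊(t+1)/3⌋ (M - m)`. -/
theorem range_le (t : ℕ) (h3 : ¬ 3 ∣ t) (F : ℕ → ℤ) (hF : ∀ j, F (j + t) = F j)
    (m M : ℤ) (hm : ∀ j, m ≤ F j + F (j + 1) + F (j + 2))
    (hM : ∀ j, F j + F (j + 1) + F (j + 2) ≤ M) (i j : ℕ) :
    F i - F j ≤ (((t + 1) / 3 : ℕ) : ℤ) * (M - m) := by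
  have hlo : ∀ (q i : ℕ), (q : ℤ) * m ≤ ∑ l ∈ range (3 * q), F (l + i) := by
    intro q i
    rw [← sum_blocks]
    have := Finset.sum_le_sum (fun b (_ : b ∈ range q) => hm (i + 3 * b))
    simpa using this
  have hhi : ∀ (q i : ℕ), ∑ l ∈ range (3 * q), F (l + i) ≤ (q : ℤ) * M := by
    intro q i
    rw [← sum_blocks]
    have := Finset.sum_le_sum (fun b (_ : b ∈ range q) => hM (i + 3 * b))
    simpa using this
  have hL : ∀ i, ∑ l ∈ range t, F (l + i) = ∑ l ∈ range t, F l := fun i => sum_shift t F hF i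
  obtain ⟨q, hq | hq⟩ : ∃ q, t = 3 * q + 1 ∨ t = 3 * q + 2 := ⟨t / 3, by omega⟩
  · -- `t = 3 q + 1`
    subst hq
    have e : (3 * q + 1 + 1) / 3 = q := by omega
    rw [e]
    have key : ∀ i, F i = ∑ l ∈ range (3 * q + 1), F l - ∑ l ∈ range (3 * q), F (l + (i + 1)) := by
      intro i
      have := hL (i + 1)
      rw [Finset.sum_range_succ] at this
      have h2 : F (3 * q + (i + 1)) = F i := by
        rw [show 3 * q + (i + 1) = i + (3 * q + 1) by ring]; exact hF i
      rw [h2] at this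
      linarith
    have k1 := key i
    have k2 := key j
    have b1 := hlo q (i + 1)
    have b2 := hhi q (j + 1)
    rw [mul_sub]
    linarith
  · subst hq
    have e : (3 * q + 2 + 1) / 3 = q + 1 := by omega
    rw [e]
    have key : ∀ i, F i = ∑ l ∈ range (3 * (q + 1)), F (l + i) - ∑ l ∈ range (3 * q + 2), F l := by
      intro i
      rw [show 3 * (q + 1) = 3 * q + 2 + 1 by ring, Finset.sum_range_succ, hL i]
      have h2 : F (3 * q + 2 + i) = F i := by
        rw [show 3 * q + 2 + i = i + (3 * q + 2) by ring]; exact hF i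
      rw [h2]; ring
    have k1 := key i
    have k2 := key j
    have b1 := hhi (q + 1) i
    have b2 := hlo (q + 1) j
    rw [mul_sub]
    linarith

namespace CycEnum

variable {V : Type*} [Fintype V] {G : SimpleGraph V} {k t : ℕ} (E : CycEnum G k t)
include E

theorem far (hk : 0 < k) (ht : 4 ≤ t) (h3 : ¬ 3 ∣ t) (f) :
    3 * ((k : ℤ) * t) - 1 ≤ (4 * (((t + 1) / 3 : ℕ) : ℤ) + 2) * ((maxS G f : ℤ) - minS G f) := by
  -- the vertex with label 1
  have hcard : Fintype.card V = k * t := E.card_eq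
  have hpos : 0 < Fintype.card V := by rw [hcard]; positivity
  obtain ⟨c, j, hj, hx⟩ := E.surj (f.symm ⟨0, hpos⟩)
  have hF1 : E.F f c j = 1 := by
    unfold F
    rw [hx]
    simp
  have hmin := E.minS_le' (by omega) f c
  have hmax := E.le_maxS' (by omega) f c
  have hS := hmin j
  rw [hF1] at hS
  -- average
  have hM : 3 * ((k * t : ℤ) + 1) ≤ 2 * (maxS G f : ℤ) := by
    have := E.avg hk (by omega) (rev f) (3 * ((k * t : ℤ) + 1) - maxS G f) (by
      intro c j
      rw [E.S_rev]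
      linarith [E.le_maxS' (by omega) f c j])
    linarith
  have hne : E.F f c (j + 1) ≠ E.F f c (j + 2) := by
    intro h
    have h1 : j + 1 ≡ j + 2 [MOD t] := per_inj t (by omega) (E.F f c) (E.F_per f c) (E.F_inj f c) h
    have h2 : t ∣ 1 := by
      have := (Nat.modEq_iff_dvd' (show j + 1 ≤ j + 2 by omega)).1 h1
      simpa using this
    have := Nat.le_of_dvd (by norm_num) h2
    omega
  have r1 := range_le t h3 (E.F f c) (E.F_per f c) _ _ hmin hmax (j + 1) j
  have r2 := range_le t h3 (E.F f c) (E.F_per f c) _ _ hmin hmax (j + 2) j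
  rw [hF1] at r1 r2
  set D : ℤ := (maxS G f : ℤ) - minS G f with hD
  set R : ℤ := (((t + 1) / 3 : ℕ) : ℤ) * D with hR
  have : (4 * (((t + 1) / 3 : ℕ) : ℤ) + 2) * D = 4 * R + 2 * D := by rw [hR]; ring
  rw [this]
  rcases lt_or_gt_of_ne hne with h | h
  · -- `F (j+2)` is the larger
    have : (minS G f : ℤ) ≤ 2 * E.F f c (j + 2) := by omega
    linarith
  · have : (minS G f : ℤ) ≤ 2 * E.F f c (j + 1) := by omega
    linarith

theorem far' (hk : 0 < k) (ht : 4 ≤ t) (h3 : ¬ 3 ∣ t) :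
    3 * (k * t) ≤ (4 * ((t + 1) / 3) + 2) * NSsp G + 1 := by
  have : Nonempty (V ≃ Fin (Fintype.card V)) := ⟨Fintype.equivFin V⟩
  have := E.nonempty hk
  obtain ⟨f, hf⟩ : ∃ f, maxS G f - minS G f = NSsp G := exists_eq_ciInf_of_finite
  have hle : minS G f ≤ maxS G f := by
    obtain ⟨v, hv⟩ := exists_minS G f
    rw [← hv]; exact le_maxS G f v
  have h := E.far hk ht h3 f
  rw [← Nat.cast_sub hle, hf] at h
  have h2 : ((3 * (k * t) : ℕ) : ℤ) ≤ (((4 * ((t + 1) / 3) + 2) * NSsp G + 1 : ℕ) : ℤ) := by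
    push_cast at h ⊢
    linarith
  exact_mod_cast h2

end CycEnum

/-! ### The graphs -/

/-- `k C_t`: the disjoint union of `k` copies of the cycle `C_t`. -/
def copies (k t : ℕ) : SimpleGraph (Fin k × Fin t) :=
  (⊥ : SimpleGraph (Fin k)) □ SimpleGraph.cycleGraph t

/-- The residue of `j` as an element of `Fin (t + 3)`. -/
def fc (t j : ℕ) : Fin (t + 3) := ⟨j % (t + 3), Nat.mod_lt _ (by omega)⟩

theorem fc_val (t j : ℕ) : (fc t j : ℕ) = j % (t + 3) := rfl

theorem fc_succ (t j : ℕ) : fc t (j + 1) = fc t j + 1 := by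
  ext
  rw [Fin.val_add, fc_val, fc_val, Fin.val_one', Nat.add_mod]

theorem cyc_nb (t : ℕ) (j : ℕ) (u : Fin (t + 3)) :
    (u = fc t (j + 1) ∨ (SimpleGraph.cycleGraph (t + 3)).Adj (fc t (j + 1)) u) ↔
    u = fc t j ∨ u = fc t (j + 1) ∨ u = fc t (j + 2) := by
  have e2 : fc t (j + 2) = fc t j + 1 + 1 := by rw [fc_succ t (j + 1), fc_succ]
  have e1 := fc_succ t j
  have h0 : (SimpleGraph.cycleGraph (t + 3)).Adj (fc t (j + 1)) u ↔
      fc t (j + 1) - u = 1 ∨ u - fc t (j + 1) = 1 := SimpleGraph.cycleGraph_adj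
  rw [h0]
  have h1 : (fc t (j + 1) - u = 1) ↔ u = fc t j := by
    rw [e1]
    constructor
    · intro h
      have : fc t j + 1 = 1 + u := sub_eq_iff_eq_add.1 h
      have h3 : 1 + fc t j = 1 + u := by rw [← this]; exact add_comm _ _
      exact (add_left_cancel h3).symm
    · intro h; rw [h]; exact add_sub_cancel_left _ _
  have h2 : (u - fc t (j + 1) = 1) ↔ u = fc t (j + 2) := by
    rw [e1, e2, sub_eq_iff_eq_add, add_comm (1 : Fin (t + 3))]
  rw [h1, h2]
  tauto

/-- `k C_t` as an enumeration. -/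
def copiesEnum (k t : ℕ) : CycEnum (copies k (t + 3)) k (t + 3) where
  x c j := (c, fc t j)
  per c j := by
    have : fc t (j + (t + 3)) = fc t j := by ext; simp only [fc_val]; rw [Nat.add_mod_right]
    rw [this]
  inj c c' i j hi hj h := by
    rw [Prod.mk.injEq] at h
    refine ⟨h.1, ?_⟩
    have := congrArg Fin.val h.2
    rw [fc_val, fc_val, Nat.mod_eq_of_lt hi, Nat.mod_eq_of_lt hj] at this
    exact this
  surj v := ⟨v.1, (v.2 : ℕ), v.2.isLt, by
    have : fc t (v.2 : ℕ) = v.2 := by ext; exact Nat.mod_eq_of_lt v.2.isLt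
    rw [this]⟩
  nb c j u := by
    obtain ⟨d, u⟩ := u
    have hadj : (copies k (t + 3)).Adj (c, fc t (j + 1)) (d, u) ↔
        c = d ∧ (SimpleGraph.cycleGraph (t + 3)).Adj (fc t (j + 1)) u := by
      unfold copies
      rw [SimpleGraph.boxProd_adj]
      simp only [SimpleGraph.bot_adj, false_and, false_or]
      tauto
    rw [hadj]
    simp only [Prod.mk.injEq]
    have := cyc_nb t j u
    constructor
    · rintro (⟨h1, h2⟩ | ⟨h1, h2⟩)
      · exact Or.inr (Or.inl ⟨h1, h2⟩)
      · rcases this.1 (Or.inr h2) with h | h | h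
        · exact Or.inl ⟨h1.symm, h⟩
        · exact Or.inr (Or.inl ⟨h1.symm, h⟩)
        · exact Or.inr (Or.inr ⟨h1.symm, h⟩)
    · rintro (⟨h1, h2⟩ | ⟨h1, h2⟩ | ⟨h1, h2⟩)
      · rcases this.2 (Or.inl h2) with h | h
        · exact Or.inl ⟨h1, h⟩
        · exact Or.inr ⟨h1.symm, h⟩
      · exact Or.inl ⟨h1, h2⟩
      · rcases this.2 (Or.inr (Or.inr h2)) with h | h
        · exact Or.inl ⟨h1, h⟩
        · exact Or.inr ⟨h1.symm, h⟩

/-- `C_n` as an enumeration. -/
def cycleEnum (t : ℕ) : CycEnum (SimpleGraph.cycleGraph (t + 3)) 1 (t + 3) where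
  x _ j := fc t j
  per c j := by ext; simp only [fc_val]; rw [Nat.add_mod_right]
  inj c c' i j hi hj h := by
    refine ⟨Subsingleton.elim _ _, ?_⟩
    have := congrArg Fin.val h
    rw [fc_val, fc_val, Nat.mod_eq_of_lt hi, Nat.mod_eq_of_lt hj] at this
    exact this
  surj v := ⟨0, (v : ℕ), v.isLt, by ext; exact Nat.mod_eq_of_lt v.isLt⟩
  nb _ j u := cyc_nb t j u

/-- Transport along an isomorphism. -/
def CycEnum.map {V W : Type*} [Fintype V] [Fintype W] {G : SimpleGraph V} {H : SimpleGraph W}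
    {k t : ℕ} (E : CycEnum H k t) (e : G ≃g H) : CycEnum G k t where
  x c j := e.symm (E.x c j)
  per c j := by rw [E.per]
  inj c c' i j hi hj h := E.inj c c' i j hi hj (e.symm.injective h)
  surj v := by
    obtain ⟨c, j, hj, h⟩ := E.surj (e v)
    exact ⟨c, j, hj, by rw [h]; exact e.symm_apply_apply v⟩
  nb c j u := by
    have h := E.nb c j (e u)
    have h1 : ∀ y : W, (u = e.symm y) ↔ (e u = y) := by
      intro y
      constructor
      · intro h; rw [h]; exact e.apply_symm_apply y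
      · intro h; rw [← h]; exact (e.symm_apply_apply u).symm
    have h2 : G.Adj (e.symm (E.x c (j + 1))) u ↔ H.Adj (E.x c (j + 1)) (e u) := by
      rw [← e.map_adj_iff, e.apply_symm_apply]
    rw [h1, h1, h1, h2]
    exact h

end Pool.Agent.CycNS
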