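import Mathlib
import Pool.Agent.CycNS.Far

/-!
# Disjoint unions of cycles of arbitrary lengths: the spread is at least twice the number of
cycles whose length is not divisible by 3
-/

namespace Pool.Agent.CycNS

open Finset

/-- A sequence with steps of size at most `D` that avoids `D` consecutive integers stays on
one side. -/
theorem same_side (K : ℕ → ℤ) (D x : ℤ) (N : ℕ)
    (h1 : ∀ s, K (s + 1) - K s ≤ D) (h2 : ∀ s, K s - K (s + 1) ≤ D)
    (hI : ∀ s, 1 ≤ s → s < N → K s < x ∨ x + D ≤ K s) :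
    (∀ s, 1 ≤ s → s < N → K s < x) ∨ (∀ s, 1 ≤ s → s < N → x + D ≤ K s) := by
  by_cases hN : 1 < N
  · rcases hI 1 le_rfl hN with h | h
    · left
      intro s hs
      induction s, hs using Nat.le_induction with
      | base => intro _; exact h
      | succ s hs ih =>
        intro hsN
        rcases hI (s + 1) (by omega) hsN with h' | h'
        · exact h'
        · have := ih (by omega)
          have := h1 s
          omega
    · right
      intro s hs
      induction s, hs using Nat.le_induction with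
      | base => intro _; exact h
      | succ s hs ih =>
        intro hsN
        rcases hI (s + 1) (by omega) hsN with h' | h'
        · have := ih (by omega)
          have := h2 s
          omega
        · exact h'
  · left
    intro s hs hsN
    omega

/-- Along a cycle of length prime to 3 at least two labels lie in a certain interval of `M - m`
integers, which does not depend on the cycle. -/
theorem two_in (t : ℕ) (ht : 4 ≤ t) (h3 : ¬ 3 ∣ t) (F : ℕ → ℤ) (hF : ∀ j, F (j + t) = F j)
    (m M x : ℤ) (hm : ∀ j, m ≤ F j + F (j + 1) + F (j + 2))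
    (hM : ∀ j, F j + F (j + 1) + F (j + 2) ≤ M)
    (h1 : 4 * m - 5 * (M - m) < 12 * x) (h2 : 12 * x < 4 * m + 12 - 3 * (M - m)) :
    ∃ i < t, ∃ j < t, i ≠ j ∧ (x ≤ F i ∧ F i < x + (M - m)) ∧ (x ≤ F j ∧ F j < x + (M - m)) := by
  by_contra hcon
  push Not at hcon
  set D := M - m with hD
  have hD0 : 0 ≤ D := by linarith [hm 0, hM 0]
  -- the exceptional place
  obtain ⟨i0, hi0, hex⟩ : ∃ i0 < t, ∀ i < t, i ≠ i0 → (F i < x ∨ x + D ≤ F i) := by
    by_cases h : ∃ i < t, x ≤ F i ∧ F i < x + D
    · obtain ⟨i0, hi0, h0⟩ := h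
      refine ⟨i0, hi0, ?_⟩
      intro i hi hne
      by_contra hc
      push Not at hc
      have := hcon i0 hi0 i hi (Ne.symm hne) h0 hc.1
      omega
    · push Not at h
      refine ⟨0, by omega, ?_⟩
      intro i hi _
      by_cases hx : F i < x
      · exact Or.inl hx
      · exact Or.inr (h i hi (by omega))
  set K : ℕ → ℤ := fun s => F (i0 + 3 * s) with hK
  have k1 : ∀ s, K (s + 1) - K s ≤ D := by
    intro s
    have a := hM (i0 + 3 * s + 1)
    have b := hm (i0 + 3 * s)
    simp only [hK]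
    rw [show i0 + 3 * (s + 1) = i0 + 3 * s + 1 + 2 by ring]
    rw [show i0 + 3 * s + 1 + 1 = i0 + 3 * s + 2 by ring] at a
    linarith
  have k2 : ∀ s, K s - K (s + 1) ≤ D := by
    intro s
    have a := hm (i0 + 3 * s + 1)
    have b := hM (i0 + 3 * s)
    simp only [hK]
    rw [show i0 + 3 * (s + 1) = i0 + 3 * s + 1 + 2 by ring]
    rw [show i0 + 3 * s + 1 + 1 = i0 + 3 * s + 2 by ring] at a
    linarith
  have hcop : Nat.Coprime 3 t := (Nat.Prime.coprime_iff_not_dvd Nat.prime_three).2 h3
  have hKm : ∀ s, K s = F ((i0 + 3 * s) % t) := fun s => per_mod t F hF _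
  have hneq : ∀ s, 1 ≤ s → s < t → (i0 + 3 * s) % t ≠ i0 := by
    intro s hs hst he
    have h4 : i0 + 3 * s ≡ i0 + 0 [MOD t] := by
      change (i0 + 3 * s) % t = (i0 + 0) % t
      rw [he, add_zero, Nat.mod_eq_of_lt hi0]
    have h5 : 3 * s ≡ 0 [MOD t] := Nat.ModEq.add_left_cancel' i0 h4
    have h6 : t ∣ 3 * s := (Nat.modEq_zero_iff_dvd).1 h5
    have h7 : t ∣ s := (Nat.Coprime.dvd_of_dvd_mul_left hcop.symm h6)
    have := Nat.le_of_dvd (by omega) h7
    omega
  have hout : ∀ s, 1 ≤ s → s < t → K s < x ∨ x + D ≤ K s := by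
    intro s hs hst
    rw [hKm]
    exact hex _ (Nat.mod_lt _ (by omega)) (hneq s hs hst)
  -- every other place is reached
  have hreach : ∀ j < t, j ≠ i0 → ∃ s, 1 ≤ s ∧ s < t ∧ F j = K s := by
    intro j hj hne
    obtain ⟨c, hc⟩ := Nat.exists_mul_mod_eq_one_of_coprime hcop (by omega)
    refine ⟨((j + t - i0) * c) % t, ?_, Nat.mod_lt _ (by omega), ?_⟩
    · by_contra h0
      have h0' : ((j + t - i0) * c) % t = 0 := by omega
      have hd : t ∣ (j + t - i0) * c := Nat.dvd_of_mod_eq_zero h0'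
      have hcc : Nat.Coprime t c := by
        have h9 : 3 * c ≡ 1 [MOD t] := by
          change (3 * c) % t = 1 % t
          rw [hc.2, Nat.mod_eq_of_lt (by omega)]
        have := Nat.coprime_of_mul_modEq_one (n := t) (a := c) 3 (by rw [mul_comm]; exact h9)
        exact this.symm
      have hd2 : t ∣ (j + t - i0) := hcc.dvd_of_dvd_mul_right hd
      obtain ⟨q, hq⟩ := hd2
      have hq1 : q = 1 := by
        have a1 : 0 < j + t - i0 := by omega
        have a2 : j + t - i0 < 2 * t := by omega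
        have b1 : 0 < q := by
          rcases Nat.eq_zero_or_pos q with h | h
          · rw [h, mul_zero] at hq; omega
          · exact h
        have b2 : q < 2 := by
          by_contra hh
          have : 2 * t ≤ t * q := by nlinarith
          omega
        omega
      rw [hq1, mul_one] at hq
      omega
    · rw [hKm, per_mod t F hF j]
      congr 1
      change j ≡ i0 + 3 * (((j + t - i0) * c) % t) [MOD t]
      have e1 : 3 * (((j + t - i0) * c) % t) ≡ 3 * ((j + t - i0) * c) [MOD t] :=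
        (Nat.mod_modEq _ _).mul_left 3
      have e2 : 3 * ((j + t - i0) * c) ≡ (j + t - i0) * 1 [MOD t] := by
        rw [show 3 * ((j + t - i0) * c) = (j + t - i0) * (3 * c) by ring]
        apply Nat.ModEq.mul_left
        change (3 * c) % t = 1 % t
        rw [hc.2, Nat.mod_eq_of_lt (by omega)]
      have e3 : i0 + 3 * (((j + t - i0) * c) % t) ≡ i0 + (j + t - i0) * 1 [MOD t] :=
        (e1.trans e2).add_left i0
      refine Nat.ModEq.symm (e3.trans ?_)
      rw [show i0 + (j + t - i0) * 1 = j + t by omega]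
      exact Nat.add_modEq_right
  -- the sum over the cycle
  have hsum : ∀ θ : ℤ, ∑ j ∈ range t, (F j + F (j + 1) + F (j + 2) - θ)
      = 3 * ∑ j ∈ range t, F j - t * θ := by
    intro θ
    rw [Finset.sum_sub_distrib, Finset.sum_add_distrib, Finset.sum_add_distrib,
      sum_shift t F hF 1, sum_shift t F hF 2]
    simp only [Finset.sum_const, Finset.card_range, nsmul_eq_mul]
    ring
  have hlo : (t : ℤ) * m ≤ 3 * ∑ j ∈ range t, F j := by
    have := hsum m
    have h0 : 0 ≤ ∑ j ∈ range t, (F j + F (j + 1) + F (j + 2) - m) :=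
      Finset.sum_nonneg fun j _ => by linarith [hm j]
    linarith
  have hhi : 3 * ∑ j ∈ range t, F j ≤ (t : ℤ) * M := by
    have := hsum M
    have h0 : ∑ j ∈ range t, (F j + F (j + 1) + F (j + 2) - M) ≤ 0 :=
      Finset.sum_nonpos fun j _ => by linarith [hM j]
    linarith
  have hsplit : ∑ j ∈ range t, F j = F i0 + ∑ j ∈ (range t).erase i0, F j :=
    (Finset.add_sum_erase _ _ (Finset.mem_range.2 hi0)).symm
  have hcard : (((range t).erase i0).card : ℤ) = t - 1 := by
    rw [Finset.card_erase_of_mem (Finset.mem_range.2 hi0), Finset.card_range,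
      Nat.cast_sub (by omega)]
    simp
  have ht' : (4 : ℤ) ≤ t := by exact_mod_cast ht
  have hK0 : K 0 = F i0 := by simp [hK]
  rcases same_side K D x t k1 k2 hout with hs | hs
  · -- all low
    have hF0 : F i0 ≤ x - 1 + D := by
      have a := k2 0
      have b := hs 1 le_rfl (by omega)
      rw [hK0] at a
      simp only [zero_add] at a
      omega
    have hrest : ∑ j ∈ (range t).erase i0, F j ≤ ((t : ℤ) - 1) * (x - 1) := by
      rw [← hcard, ← nsmul_eq_mul]
      refine Finset.sum_le_card_nsmul _ _ _ ?_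
      intro j hj
      obtain ⟨hj1, hj2⟩ := Finset.mem_erase.1 hj
      obtain ⟨s, s1, s2, s3⟩ := hreach j (Finset.mem_range.1 hj2) hj1
      have := hs s s1 s2
      rw [s3]; omega
    have : (t : ℤ) * m ≤ 3 * ((x - 1 + D) + ((t : ℤ) - 1) * (x - 1)) := by
      rw [hsplit] at hlo; linarith
    nlinarith
  · -- all high
    have hF0 : x ≤ F i0 := by
      have a := k1 0
      have b := hs 1 le_rfl (by omega)
      rw [hK0] at a
      simp only [zero_add] at a
      omega
    have hrest : ((t : ℤ) - 1) * (x + D) ≤ ∑ j ∈ (range t).erase i0, F j := by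
      rw [← hcard, ← nsmul_eq_mul]
      refine Finset.card_nsmul_le_sum _ _ _ ?_
      intro j hj
      obtain ⟨hj1, hj2⟩ := Finset.mem_erase.1 hj
      obtain ⟨s, s1, s2, s3⟩ := hreach j (Finset.mem_range.1 hj2) hj1
      rw [s3]; exact hs s s1 s2
    have : 3 * (x + ((t : ℤ) - 1) * (x + D)) ≤ (t : ℤ) * M := by
      rw [hsplit] at hhi; linarith
    have hMm : M = m + D := by rw [hD]; ring
    rw [hMm] at this
    nlinarith

/-! ### Graphs -/

/-- The disjoint union of the cycles `C_{t i}`, `i ∈ ι`. -/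
def cycles {ι : Type} (t : ι → ℕ) : SimpleGraph (Σ i, Fin (t i)) where
  Adj a b := ∃ (i : ι) (u v : Fin (t i)), a = ⟨i, u⟩ ∧ b = ⟨i, v⟩ ∧
    (SimpleGraph.cycleGraph (t i)).Adj u v
  symm := ⟨fun _ _ ⟨i, u, v, h1, h2, h3⟩ => ⟨i, v, u, h2, h1, h3.symm⟩⟩
  loopless := ⟨fun a ⟨i, u, v, h1, h2, h3⟩ => by
    subst h1
    have : u = v := by
      have h4 := (Sigma.mk.inj_iff.1 h2).2
      exact eq_of_heq h4
    exact h3.ne this⟩

/-- The residue of `j` as an element of `Fin n`. -/
def fn (n : ℕ) (hn : 0 < n) (j : ℕ) : Fin n := ⟨j % n, Nat.mod_lt _ hn⟩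

theorem fn_nb (n : ℕ) (hn : 3 ≤ n) (j : ℕ) (u : Fin n) :
    (u = fn n (by omega) (j + 1) ∨
      (SimpleGraph.cycleGraph n).Adj (fn n (by omega) (j + 1)) u) ↔
    u = fn n (by omega) j ∨ u = fn n (by omega) (j + 1) ∨ u = fn n (by omega) (j + 2) := by
  obtain ⟨r, rfl⟩ : ∃ r, n = r + 3 := ⟨n - 3, by omega⟩
  exact cyc_nb r j u

section

variable {ι : Type} (t : ι → ℕ) (ht : ∀ i, 3 ≤ t i) {V : Type} {G : SimpleGraph V}
  (e : G ≃g cycles t)

/-- place `j` of cycle `i` -/
def pl (i : ι) (j : ℕ) : V := e.symm ⟨i, fn (t i) (by have := ht i; omega) j⟩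

theorem pl_per (i : ι) (j : ℕ) : pl t ht e i (j + t i) = pl t ht e i j := by
  unfold pl
  have : fn (t i) (by have := ht i; omega) (j + t i) = fn (t i) (by have := ht i; omega) j := by
    ext; simp [fn]
  rw [this]

theorem pl_inj (i : ι) {a b : ℕ} (h : pl t ht e i a = pl t ht e i b) : a ≡ b [MOD t i] := by
  unfold pl at h
  have h1 := e.symm.injective h
  have h2 := eq_of_heq ((Sigma.mk.injEq _ _ _ _).mp h1).2
  exact congrArg Fin.val h2

theorem pl_nb (i : ι) (j : ℕ) (u : V) :
    (u = pl t ht e i (j + 1) ∨ G.Adj (pl t ht e i (j + 1)) u) ↔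
    u = pl t ht e i j ∨ u = pl t ht e i (j + 1) ∨ u = pl t ht e i (j + 2) := by
  obtain ⟨w, rfl⟩ := e.symm.surjective u
  obtain ⟨i', u⟩ := w
  have hadj : G.Adj (pl t ht e i (j + 1)) (e.symm ⟨i', u⟩) ↔
      (cycles t).Adj ⟨i, fn (t i) (by have := ht i; omega) (j + 1)⟩ ⟨i', u⟩ := by
    unfold pl
    exact e.symm.map_adj_iff
  rw [hadj]
  unfold pl
  simp only [EmbeddingLike.apply_eq_iff_eq]
  have hkey : ∀ (u : Fin (t i)), (cycles t).Adj ⟨i, fn (t i) (by have := ht i; omega) (j + 1)⟩
      ⟨i, u⟩ ↔ (SimpleGraph.cycleGraph (t i)).Adj (fn (t i) (by have := ht i; omega) (j + 1)) u := by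
    intro u
    constructor
    · rintro ⟨a, b, c, h1, h2, h3⟩
      obtain ⟨rfl, h1'⟩ := (Sigma.mk.injEq _ _ _ _).mp h1
      obtain ⟨_, h2'⟩ := (Sigma.mk.injEq _ _ _ _).mp h2
      rw [eq_of_heq h1', eq_of_heq h2']
      exact h3
    · intro h
      exact ⟨i, _, u, rfl, rfl, h⟩
  by_cases hi : i' = i
  · subst hi
    rw [hkey u]
    have := fn_nb (t i') (ht i') j u
    simp only [Sigma.mk.injEq, heq_eq_eq, true_and]
    exact this
  · have h1 : ∀ w : Fin (t i), (⟨i', u⟩ : Σ i, Fin (t i)) ≠ ⟨i, w⟩ := by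
      intro w hw
      exact hi (congrArg Sigma.fst hw)
    have h2 : ¬ (cycles t).Adj ⟨i, fn (t i) (by have := ht i; omega) (j + 1)⟩ ⟨i', u⟩ := by
      rintro ⟨a, b, c, q1, q2, q3⟩
      have e1 := congrArg Sigma.fst q1
      have e2 := congrArg Sigma.fst q2
      exact hi (e2.trans e1.symm)
    simp only [h1, h2, or_self]

theorem pl_ne1 (i : ι) (j : ℕ) : pl t ht e i j ≠ pl t ht e i (j + 1) := by
  intro h
  have h1 := pl_inj t ht e i h
  have h2 : t i ∣ 1 := by
    have := (Nat.modEq_iff_dvd' (Nat.le_add_right j 1)).1 h1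
    simpa using this
  have := Nat.le_of_dvd (by norm_num) h2
  have := ht i
  omega

theorem pl_ne2 (i : ι) (j : ℕ) : pl t ht e i j ≠ pl t ht e i (j + 2) := by
  intro h
  have h1 := pl_inj t ht e i h
  have h2 : t i ∣ 2 := by
    have := (Nat.modEq_iff_dvd' (Nat.le_add_right j 2)).1 h1
    simpa using this
  have := Nat.le_of_dvd (by norm_num) h2
  have := ht i
  omega

variable [Fintype V]

theorem nsum_pl (f : V ≃ Fin (Fintype.card V)) (i : ι) (j : ℕ) :
    (nsum G f (pl t ht e i (j + 1)) : ℤ) = (((f (pl t ht e i j) : ℕ) : ℤ) + 1)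
      + (((f (pl t ht e i (j + 1)) : ℕ) : ℤ) + 1) + (((f (pl t ht e i (j + 2)) : ℕ) : ℤ) + 1) := by
  classical
  unfold nsum
  have hset : (Finset.univ.filter fun u => u = pl t ht e i (j + 1) ∨
      G.Adj (pl t ht e i (j + 1)) u)
      = {pl t ht e i j, pl t ht e i (j + 1), pl t ht e i (j + 2)} := by
    ext u
    simp only [Finset.mem_filter, Finset.mem_univ, true_and, Finset.mem_insert,
      Finset.mem_singleton]
    exact pl_nb t ht e i j u
  rw [hset]
  have h1 : pl t ht e i j ∉ ({pl t ht e i (j + 1), pl t ht e i (j + 2)} : Finset V) := by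
    simp only [Finset.mem_insert, Finset.mem_singleton, not_or]
    exact ⟨pl_ne1 t ht e i j, pl_ne2 t ht e i j⟩
  have h2 : pl t ht e i (j + 1) ∉ ({pl t ht e i (j + 2)} : Finset V) := by
    simp only [Finset.mem_singleton]
    exact pl_ne1 t ht e i (j + 1)
  rw [Finset.sum_insert h1, Finset.sum_insert h2, Finset.sum_singleton]
  push_cast
  ring

include ht e in
/-- The spread of every labeling is at least twice the number of cycles of length prime to 3. -/
theorem spread_ge [Fintype ι] (f : V ≃ Fin (Fintype.card V)) :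
    2 * (Finset.univ.filter fun i => ¬ 3 ∣ t i).card ≤ maxS G f - minS G f := by
  classical
  set B := Finset.univ.filter fun i => ¬ 3 ∣ t i with hB
  rcases B.eq_empty_or_nonempty with hBe | ⟨i1, hi1⟩
  · rw [hBe]; simp
  have hi1' : ¬ 3 ∣ t i1 := (Finset.mem_filter.1 hi1).2
  have : Nonempty V := ⟨pl t ht e i1 0⟩
  have hle : minS G f ≤ maxS G f := le_trans (minS_le G f (pl t ht e i1 0)) (le_maxS G f _)
  set m : ℤ := (minS G f : ℤ) with hm
  set M : ℤ := (maxS G f : ℤ) with hM
  set F : ι → ℕ → ℤ := fun i j => ((f (pl t ht e i j) : ℕ) : ℤ) + 1 with hF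
  have hFper : ∀ i j, F i (j + t i) = F i j := by
    intro i j; simp only [hF]; rw [pl_per]
  have hSm : ∀ i j, m ≤ F i j + F i (j + 1) + F i (j + 2) := by
    intro i j
    have := minS_le G f (pl t ht e i (j + 1))
    have h2 := nsum_pl t ht e f i j
    simp only [hF]
    rw [← h2, hm]
    exact_mod_cast this
  have hSM : ∀ i j, F i j + F i (j + 1) + F i (j + 2) ≤ M := by
    intro i j
    have := le_maxS G f (pl t ht e i (j + 1))
    have h2 := nsum_pl t ht e f i j
    simp only [hF]
    rw [← h2, hM]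
    exact_mod_cast this
  have hFinj : ∀ i a b, F i a = F i b → a ≡ b [MOD t i] := by
    intro i a b h
    simp only [hF] at h
    have h1 : (f (pl t ht e i a) : ℕ) = (f (pl t ht e i b) : ℕ) := by
      exact_mod_cast add_right_cancel h
    exact pl_inj t ht e i (f.injective (Fin.ext h1))
  have ht4 : ∀ i, ¬ 3 ∣ t i → 4 ≤ t i := by
    intro i hi
    have := ht i
    by_contra hc
    have : t i = 3 := by omega
    exact hi (by rw [this])
  have hD : 0 < M - m := by
    by_contra hc
    have a1 := hSm i1 0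
    have a2 := hSM i1 0
    have a3 := hSm i1 1
    have a4 := hSM i1 1
    simp only [zero_add, Nat.reduceAdd] at a1 a2 a3 a4
    have h03 : F i1 0 = F i1 3 := by omega
    have h1 := hFinj i1 0 3 h03
    have h2 : t i1 ∣ 3 := by
      have := (Nat.modEq_iff_dvd' (Nat.zero_le 3)).1 h1
      simpa using this
    have h3 := Nat.le_of_dvd (by norm_num) h2
    have := ht4 i1 hi1'
    omega
  set D := M - m with hDdef
  set x : ℤ := (4 * m - 5 * D) / 12 + 1 with hx
  have hx1 : 4 * m - 5 * D < 12 * x := by rw [hx]; omega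
  have hx2 : 12 * x < 4 * m + 12 - 3 * D := by rw [hx]; omega
  -- the labels in the interval
  set S := Finset.univ.filter fun v : V => x ≤ ((f v : ℕ) : ℤ) + 1 ∧ ((f v : ℕ) : ℤ) + 1 < x + D
    with hS
  have hScard : S.card ≤ (Finset.Ico x (x + D)).card := by
    refine Finset.card_le_card_of_injOn (fun v => ((f v : ℕ) : ℤ) + 1) ?_ ?_
    · intro v hv
      have hv' := (Finset.mem_filter.1 (Finset.mem_coe.1 hv)).2
      exact Finset.mem_coe.2 (Finset.mem_Ico.2 hv')
    · intro v _ w _ h
      have h1 : (f v : ℕ) = (f w : ℕ) := by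
        have h0 : ((f v : ℕ) : ℤ) + 1 = ((f w : ℕ) : ℤ) + 1 := h
        exact_mod_cast add_right_cancel h0
      exact f.injective (Fin.ext h1)
  rw [Int.card_Ico] at hScard
  have hfib : ∑ i, (S.filter fun v => (e v).1 = i).card = S.card :=
    (Finset.card_eq_sum_card_fiberwise (fun v _ => Finset.mem_univ ((e v).1))).symm
  have htwo : ∀ i ∈ B, 2 ≤ (S.filter fun v => (e v).1 = i).card := by
    intro i hi
    have hi' : ¬ 3 ∣ t i := (Finset.mem_filter.1 hi).2
    obtain ⟨a, ha, b, hb, hab, h1, h2⟩ := two_in (t i) (ht4 i hi') hi' (F i) (hFper i) m M x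
      (hSm i) (hSM i) hx1 hx2
    have hne : pl t ht e i a ≠ pl t ht e i b := by
      intro h
      have := pl_inj t ht e i h
      have h3 : a % t i = b % t i := this
      rw [Nat.mod_eq_of_lt ha, Nat.mod_eq_of_lt hb] at h3
      exact hab h3
    have hsub : ({pl t ht e i a, pl t ht e i b} : Finset V) ⊆
        S.filter fun v => (e v).1 = i := by
      intro v hv
      simp only [Finset.mem_insert, Finset.mem_singleton] at hv
      rcases hv with rfl | rfl
      · refine Finset.mem_filter.2 ⟨Finset.mem_filter.2 ⟨Finset.mem_univ _, h1⟩, ?_⟩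
        unfold pl; rw [e.apply_symm_apply]
      · refine Finset.mem_filter.2 ⟨Finset.mem_filter.2 ⟨Finset.mem_univ _, h2⟩, ?_⟩
        unfold pl; rw [e.apply_symm_apply]
    have := Finset.card_le_card hsub
    rwa [Finset.card_pair hne] at this
  have hsum : 2 * B.card ≤ S.card := by
    rw [← hfib]
    calc 2 * B.card = ∑ _i ∈ B, 2 := by rw [Finset.sum_const, smul_eq_mul, mul_comm]
      _ ≤ ∑ i ∈ B, (S.filter fun v => (e v).1 = i).card := Finset.sum_le_sum htwo
      _ ≤ ∑ i, (S.filter fun v => (e v).1 = i).card :=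
        Finset.sum_le_sum_of_subset (Finset.subset_univ _)
  have hfin : 2 * B.card ≤ (x + D - x).toNat := le_trans hsum hScard
  omega

end

end Pool.Agent.CycNS
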