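import Mathlib
import Pool.Agent.CycNS.Mixed

/-!
# One-sided bounds for disjoint unions of cycles of arbitrary lengths
-/

namespace Pool.Agent.CycNS

open Finset

/-- Going around a cycle of length prime to 3 in steps of length 3. -/
theorem sum_step3 (t : ℕ) (ht : 0 < t) (h3 : ¬ 3 ∣ t) (g : ℕ → ℤ) (hg : ∀ j, g (j + t) = g j)
    (a : ℕ) : ∑ u ∈ range t, g (a + 3 * u) = ∑ j ∈ range t, g j := by
  have hcop : Nat.Coprime 3 t := (Nat.Prime.coprime_iff_not_dvd Nat.prime_three).2 h3
  have hinj : Set.InjOn (fun u => (a + 3 * u) % t) (range t : Finset ℕ) := by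
    intro u hu v hv h
    have hu' : u < t := Finset.mem_range.1 (Finset.mem_coe.1 hu)
    have hv' : v < t := Finset.mem_range.1 (Finset.mem_coe.1 hv)
    have h1 : a + 3 * u ≡ a + 3 * v [MOD t] := h
    have h2 : 3 * u ≡ 3 * v [MOD t] := Nat.ModEq.add_left_cancel' a h1
    have h4 : u ≡ v [MOD t] := Nat.ModEq.cancel_left_of_coprime (by
      rw [Nat.gcd_comm]; exact hcop) h2
    have h5 : u % t = v % t := h4
    rwa [Nat.mod_eq_of_lt hu', Nat.mod_eq_of_lt hv'] at h5
  have himg : (range t).image (fun u => (a + 3 * u) % t) = range t := by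
    apply Finset.eq_of_subset_of_card_le
    · intro j hj
      obtain ⟨u, _, rfl⟩ := Finset.mem_image.1 hj
      exact Finset.mem_range.2 (Nat.mod_lt _ ht)
    · rw [Finset.card_image_of_injOn hinj]
  calc ∑ u ∈ range t, g (a + 3 * u) = ∑ u ∈ range t, g ((a + 3 * u) % t) :=
        Finset.sum_congr rfl fun u _ => per_mod t g hg _
    _ = ∑ j ∈ (range t).image (fun u => (a + 3 * u) % t), g j :=
        (Finset.sum_image (fun u hu v hv h => hinj hu hv h)).symm
    _ = ∑ j ∈ range t, g j := by rw [himg]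

theorem reach (t : ℕ) (ht : 1 < t) (h3 : ¬ 3 ∣ t) (a b : ℕ) :
    ∃ s < t, a + 3 * s ≡ b [MOD t] := by
  have hcop : Nat.Coprime 3 t := (Nat.Prime.coprime_iff_not_dvd Nat.prime_three).2 h3
  obtain ⟨c, hc⟩ := Nat.exists_mul_mod_eq_one_of_coprime hcop ht
  have hat : a % t ≤ t := (Nat.mod_lt _ (by omega)).le
  refine ⟨((b + t - a % t) * c) % t, Nat.mod_lt _ (by omega), ?_⟩
  have e1 : 3 * (((b + t - a % t) * c) % t) ≡ 3 * ((b + t - a % t) * c) [MOD t] :=
    (Nat.mod_modEq _ _).mul_left 3
  have e2 : 3 * ((b + t - a % t) * c) ≡ (b + t - a % t) * 1 [MOD t] := by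
    rw [show 3 * ((b + t - a % t) * c) = (b + t - a % t) * (3 * c) by ring]
    apply Nat.ModEq.mul_left
    change (3 * c) % t = 1 % t
    rw [hc.2, Nat.mod_eq_of_lt ht]
  have e3 : a + 3 * (((b + t - a % t) * c) % t) ≡ a % t + (b + t - a % t) * 1 [MOD t] :=
    Nat.ModEq.add (Nat.mod_modEq a t).symm (e1.trans e2)
  refine e3.trans ?_
  rw [show a % t + (b + t - a % t) * 1 = b + t by omega]
  exact Nat.add_modEq_right

/-- Two labels of a cycle of length prime to 3 differ by at most the total deficit. -/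
theorem walk_le (t : ℕ) (ht : 1 < t) (h3 : ¬ 3 ∣ t) (F : ℕ → ℤ) (hF : ∀ j, F (j + t) = F j)
    (M : ℤ) (hM : ∀ j, F j + F (j + 1) + F (j + 2) ≤ M) (a b : ℕ) :
    F b - F a ≤ ∑ j ∈ range t, (M - (F j + F (j + 1) + F (j + 2))) := by
  obtain ⟨s, hs, hsb⟩ := reach t ht h3 a b
  have hFb : F b = F (a + 3 * s) := by
    rw [per_mod t F hF b, per_mod t F hF (a + 3 * s)]
    have : (a + 3 * s) % t = b % t := hsb
    rw [this]
  have hstep : ∀ s, F (a + 3 * s) - F a ≤
      ∑ u ∈ range s, (M - (F (a + 3 * u) + F (a + 3 * u + 1) + F (a + 3 * u + 2))) := by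
    intro s
    induction s with
    | zero => simp
    | succ s ih =>
      rw [Finset.sum_range_succ]
      have h1 := hM (a + 3 * s + 1)
      rw [show a + 3 * s + 1 + 1 = a + 3 * s + 2 by ring,
        show a + 3 * s + 1 + 2 = a + 3 * (s + 1) by ring] at h1
      linarith
  have hmono : ∑ u ∈ range s, (M - (F (a + 3 * u) + F (a + 3 * u + 1) + F (a + 3 * u + 2)))
      ≤ ∑ u ∈ range t, (M - (F (a + 3 * u) + F (a + 3 * u + 1) + F (a + 3 * u + 2))) := by
    refine Finset.sum_le_sum_of_subset_of_nonneg ?_ ?_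
    · intro u hu
      exact Finset.mem_range.2 (lt_trans (Finset.mem_range.1 hu) hs)
    · intro u _ _
      linarith [hM (a + 3 * u)]
  have hfull := sum_step3 t (by omega) h3 (fun j => M - (F j + F (j + 1) + F (j + 2)))
    (by
      intro j
      rw [hF j, show j + t + 1 = j + 1 + t by ring, hF (j + 1),
        show j + t + 2 = j + 2 + t by ring, hF (j + 2)]) a
  rw [← hfull, hFb]
  exact le_trans (hstep s) hmono

/-- Every label of a cycle of length prime to 3 is close to `M / 3`. -/
theorem point_le (t : ℕ) (ht : 1 < t) (h3 : ¬ 3 ∣ t) (F : ℕ → ℤ) (hF : ∀ j, F (j + t) = F j)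
    (M : ℤ) (hM : ∀ j, F j + F (j + 1) + F (j + 2) ≤ M) (j : ℕ) :
    |3 * F j - M| ≤ 3 * ∑ j ∈ range t, (M - (F j + F (j + 1) + F (j + 2))) := by
  set δ := ∑ j ∈ range t, (M - (F j + F (j + 1) + F (j + 2))) with hδ
  have hδ0 : 0 ≤ δ := Finset.sum_nonneg fun j _ => by linarith [hM j]
  have hδ' : δ = ∑ j ∈ range t, (M - 3 * F j) := by
    rw [hδ]
    have h1 := sum_shift t F hF 1
    have h2 := sum_shift t F hF 2
    rw [Finset.sum_sub_distrib, Finset.sum_sub_distrib, Finset.sum_add_distrib,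
      Finset.sum_add_distrib, h1, h2, ← Finset.mul_sum]
    ring
  have hj : F j = F (j % t) := per_mod t F hF j
  rw [abs_le]
  constructor
  · by_cases hall : ∀ i ∈ range t, 3 * F i ≤ M
    · have h4 : M - 3 * F (j % t) ≤ δ := by
        rw [hδ']
        exact Finset.single_le_sum (f := fun i => M - 3 * F i)
          (fun i hi => by simpa using hall i hi)
          (Finset.mem_range.2 (Nat.mod_lt _ (by omega)))
      rw [hj]; linarith
    · push Not at hall
      obtain ⟨b, _, hb⟩ := hall
      have := walk_le t ht h3 F hF M hM j b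
      rw [← hδ] at this
      linarith
  · obtain ⟨a, _, ha⟩ : ∃ a ∈ range t, 3 * F a ≤ M := by
      by_contra hcon
      push Not at hcon
      have h5 : ∑ j ∈ range t, (M - 3 * F j) < ∑ j ∈ range t, (0 : ℤ) := by
        refine Finset.sum_lt_sum_of_nonempty ⟨0, Finset.mem_range.2 (by omega)⟩ ?_
        intro i hi
        linarith [hcon i hi]
      rw [← hδ'] at h5
      simp at h5
      linarith
    have := walk_le t ht h3 F hF M hM a j
    rw [← hδ] at this
    linarith

/-- The labels of a cycle of length prime to 3 are close to `M / 3` on average. -/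
theorem cycle_sum_le (t : ℕ) (ht : 1 < t) (h3 : ¬ 3 ∣ t) (F : ℕ → ℤ)
    (hF : ∀ j, F (j + t) = F j) (M : ℤ) (hM : ∀ j, F j + F (j + 1) + F (j + 2) ≤ M) :
    2 * ∑ j ∈ range t, |3 * F j - M| ≤
      (3 * t + 2) * ∑ j ∈ range t, (M - (F j + F (j + 1) + F (j + 2))) := by
  set δ := ∑ j ∈ range t, (M - (F j + F (j + 1) + F (j + 2))) with hδ
  have hδ0 : 0 ≤ δ := Finset.sum_nonneg fun j _ => by linarith [hM j]
  have hδ' : δ = ∑ j ∈ range t, (M - 3 * F j) := by
    rw [hδ]
    have h1 := sum_shift t F hF 1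
    have h2 := sum_shift t F hF 2
    rw [Finset.sum_sub_distrib, Finset.sum_sub_distrib, Finset.sum_add_distrib,
      Finset.sum_add_distrib, h1, h2, ← Finset.mul_sum]
    ring
  have hne : (range t).Nonempty := ⟨0, Finset.mem_range.2 (by omega)⟩
  obtain ⟨a, _, ha⟩ := Finset.exists_min_image (range t) F hne
  obtain ⟨b, _, hb⟩ := Finset.exists_max_image (range t) F hne
  have ht0 : (2 : ℤ) ≤ t := by exact_mod_cast ht
  by_cases hbM : 3 * F b ≤ M
  · have h1 : ∑ j ∈ range t, |3 * F j - M| = δ := by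
      rw [hδ']
      refine Finset.sum_congr rfl ?_
      intro j hj
      rw [abs_of_nonpos (by linarith [hb j hj])]
      ring
    rw [h1]
    nlinarith
  · push Not at hbM
    set A := M - 3 * F a with hA
    set B := 3 * F b - M with hB
    have hB0 : 0 < B := by rw [hB]; linarith
    have hA0 : 0 ≤ A := by
      by_contra hcon
      have h5 : ∑ j ∈ range t, (M - 3 * F j) < ∑ j ∈ range t, (0 : ℤ) := by
        refine Finset.sum_lt_sum_of_nonempty hne ?_
        intro i hi
        have := ha i hi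
        rw [hA] at hcon
        linarith
      rw [← hδ'] at h5
      simp at h5
      linarith
    have hAB : A + B ≤ 3 * δ := by
      have := walk_le t ht h3 F hF M hM a b
      rw [← hδ] at this
      rw [hA, hB]
      linarith
    have hpt : ∀ j ∈ range t, (A + B) * |3 * F j - M| ≤ 2 * A * B + (B - A) * (3 * F j - M) := by
      intro j hj
      have q1 : 3 * F j - M ≤ B := by rw [hB]; linarith [hb j hj]
      have q2 : -A ≤ 3 * F j - M := by rw [hA]; linarith [ha j hj]
      rcases le_total 0 (3 * F j - M) with h | h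
      · rw [abs_of_nonneg h]
        nlinarith
      · rw [abs_of_nonpos h]
        nlinarith
    have hsum := Finset.sum_le_sum hpt
    rw [← Finset.mul_sum, Finset.sum_add_distrib, Finset.sum_const,
      Finset.card_range, nsmul_eq_mul, ← Finset.mul_sum] at hsum
    have hy : ∑ j ∈ range t, (3 * F j - M) = -δ := by
      rw [hδ', ← Finset.sum_neg_distrib]
      exact Finset.sum_congr rfl fun j _ => by ring
    rw [hy] at hsum
    set Y := ∑ j ∈ range t, |3 * F j - M| with hY
    -- `(A + B) Y ≤ 2 A B t + (A - B) δ`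
    have h6 : (A - B) * δ ≤ (A + B) * δ := by nlinarith
    have h7 : 4 * (A * B) ≤ (A + B) * (A + B) := by nlinarith [sq_nonneg (A - B)]
    have h8 : (A + B) * (2 * Y) ≤ (A + B) * ((A + B) * t + 2 * δ) := by nlinarith
    have h9 : 2 * Y ≤ (A + B) * t + 2 * δ := le_of_mul_le_mul_left h8 (by linarith)
    nlinarith

/-- `N` different integers are far from `M / 3` on average. -/
theorem abs_sum (M : ℤ) : ∀ (N : ℕ) (S : Finset ℤ), S.card = N →
    3 * ((N : ℤ) ^ 2 - 1) ≤ 4 * ∑ x ∈ S, |3 * x - M| := by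
  intro N
  induction N using Nat.strong_induction_on with
  | _ N ih =>
    intro S hS
    rcases Nat.lt_or_ge N 2 with hN | hN
    · have h0 : 0 ≤ ∑ x ∈ S, |3 * x - M| := Finset.sum_nonneg fun x _ => abs_nonneg _
      have h1 : (N : ℤ) ≤ 1 := by exact_mod_cast (by omega : N ≤ 1)
      have h2 : (0 : ℤ) ≤ N := by positivity
      nlinarith
    · have hne : S.Nonempty := Finset.card_pos.1 (by omega)
      set a := S.min' hne with ha
      set b := S.max' hne with hb
      have haS : a ∈ S := S.min'_mem hne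
      have hbS : b ∈ S := S.max'_mem hne
      have hsub : S ⊆ Finset.Icc a b := fun x hx =>
        Finset.mem_Icc.2 ⟨S.min'_le x hx, S.le_max' x hx⟩
      have hc := Finset.card_le_card hsub
      rw [Int.card_Icc, hS] at hc
      have hab : (N : ℤ) - 1 ≤ b - a := by omega
      have hne' : b ≠ a := by
        intro h
        have : (2 : ℤ) ≤ N := by exact_mod_cast hN
        rw [h] at hab
        linarith
      have hbS' : b ∈ S.erase a := Finset.mem_erase.2 ⟨hne', hbS⟩
      have h1 : ∑ x ∈ S, |3 * x - M| = |3 * a - M| + (|3 * b - M| +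
          ∑ x ∈ (S.erase a).erase b, |3 * x - M|) := by
        rw [Finset.add_sum_erase _ (fun x => |3 * x - M|) hbS',
          Finset.add_sum_erase _ (fun x => |3 * x - M|) haS]
      have hcard : ((S.erase a).erase b).card = N - 2 := by
        rw [Finset.card_erase_of_mem hbS', Finset.card_erase_of_mem haS, hS]
        omega
      have h2 := ih (N - 2) (by omega) _ hcard
      have h3 : ((N - 2 : ℕ) : ℤ) = (N : ℤ) - 2 := by
        rw [Nat.cast_sub hN]; rfl
      rw [h3] at h2
      have h4 : 3 * (b - a) ≤ |3 * a - M| + |3 * b - M| := by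
        have q1 := neg_abs_le (3 * a - M)
        have q2 := le_abs_self (3 * b - M)
        linarith
      rw [h1]
      nlinarith

section

variable {ι : Type} [Fintype ι] (t : ι → ℕ) (ht : ∀ i, 3 ≤ t i) {V : Type} [Fintype V]
  {G : SimpleGraph V} (e : G ≃g cycles t)

include ht in
theorem sum_pl (g : V → ℤ) : ∑ v, g v = ∑ i, ∑ j ∈ range (t i), g (pl t ht e i j) := by
  classical
  have h1 : ∑ v, g v = ∑ w : (Σ i, Fin (t i)), g (e.symm w) :=
    (Equiv.sum_comp e.symm.toEquiv g).symm
  rw [h1, Fintype.sum_sigma]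
  refine Finset.sum_congr rfl ?_
  intro i _
  rw [← Fin.sum_univ_eq_sum_range (fun j => g (pl t ht e i j)) (t i)]
  refine Finset.sum_congr rfl ?_
  intro u _
  have : fn (t i) (by have := ht i; omega) (u : ℕ) = u := by
    ext; exact Nat.mod_eq_of_lt u.isLt
  unfold pl
  rw [this]

include e in
theorem card_pl : Fintype.card V = ∑ i, t i := by
  classical
  rw [Fintype.card_congr e.toEquiv, Fintype.card_sigma]
  simp

/-- The one-sided inequality. -/
theorem one_sided (g : V → ℤ) (hg : Function.Injective g) (M : ℤ)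
    (hM : ∀ i j, g (pl t ht e i j) + g (pl t ht e i (j + 1)) + g (pl t ht e i (j + 2)) ≤ M)
    (T : ℕ) :
    3 * ((∑ i with (¬ 3 ∣ t i ∧ t i ≤ T), t i : ℕ) : ℤ) ^ 2 ≤
      2 * (3 * T + 2) * (Fintype.card V * M - 3 * ∑ v, g v) + 3 := by
  classical
  set B := Finset.univ.filter (fun i => ¬ 3 ∣ t i ∧ t i ≤ T) with hB
  set F : ι → ℕ → ℤ := fun i j => g (pl t ht e i j) with hF
  have hFper : ∀ i j, F i (j + t i) = F i j := by
    intro i j; simp only [hF]; rw [pl_per]
  set δ : ι → ℤ := fun i => ∑ j ∈ range (t i), (M - (F i j + F i (j + 1) + F i (j + 2))) with hδ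
  have hδ0 : ∀ i, 0 ≤ δ i := fun i => Finset.sum_nonneg fun j _ => by
    have := hM i j
    simp only [hF]
    linarith
  have hδs : ∑ i, δ i = Fintype.card V * M - 3 * ∑ v, g v := by
    have h1 : ∀ i, δ i = (t i : ℤ) * M - 3 * ∑ j ∈ range (t i), F i j := by
      intro i
      simp only [hδ]
      have q1 := sum_shift (t i) (F i) (hFper i) 1
      have q2 := sum_shift (t i) (F i) (hFper i) 2
      rw [Finset.sum_sub_distrib, Finset.sum_add_distrib, Finset.sum_add_distrib, q1, q2]
      simp only [Finset.sum_const, Finset.card_range, nsmul_eq_mul]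
      ring
    rw [Finset.sum_congr rfl (fun i _ => h1 i), Finset.sum_sub_distrib, ← Finset.sum_mul,
      ← Finset.mul_sum, sum_pl t ht e g, card_pl t e]
    push_cast
    rfl
  -- the labels on the short cycles of length prime to 3
  set P := B.sigma (fun i => range (t i)) with hP
  have hinj : Set.InjOn (fun p : (Σ _ : ι, ℕ) => F p.1 p.2) (P : Set (Σ _ : ι, ℕ)) := by
    rintro ⟨i, a⟩ hi ⟨i', b⟩ hi' h
    have hi1 := Finset.mem_sigma.1 (Finset.mem_coe.1 hi)
    have hi2 := Finset.mem_sigma.1 (Finset.mem_coe.1 hi')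
    simp only [Finset.mem_range] at hi1 hi2
    have h1 : pl t ht e i a = pl t ht e i' b := hg h
    have h2 : i = i' := by
      have := congrArg (fun v => (e v).1) h1
      unfold pl at this
      simpa using this
    subst h2
    have h3 := pl_inj t ht e i h1
    have h4 : a % t i = b % t i := h3
    rw [Nat.mod_eq_of_lt hi1.2, Nat.mod_eq_of_lt hi2.2] at h4
    rw [h4]
  set S := P.image (fun p : (Σ _ : ι, ℕ) => F p.1 p.2) with hS
  have hScard : S.card = ∑ i ∈ B, t i := by
    rw [hS, Finset.card_image_of_injOn hinj, hP, Finset.card_sigma]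
    simp
  have hlow := abs_sum M _ S hScard
  have hsum : ∑ x ∈ S, |3 * x - M| = ∑ i ∈ B, ∑ j ∈ range (t i), |3 * F i j - M| := by
    rw [hS, Finset.sum_image (fun p hp q hq h => hinj hp hq h), hP, Finset.sum_sigma]
  have hup : 2 * ∑ i ∈ B, ∑ j ∈ range (t i), |3 * F i j - M| ≤
      ∑ i ∈ B, (3 * (T : ℤ) + 2) * δ i := by
    rw [Finset.mul_sum]
    refine Finset.sum_le_sum ?_
    intro i hi
    obtain ⟨h3, hT⟩ := (Finset.mem_filter.1 hi).2
    have h1 := cycle_sum_le (t i) (by have := ht i; omega) h3 (F i) (hFper i) M (fun j => hM i j)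
    refine le_trans h1 ?_
    have h2 : ((t i : ℕ) : ℤ) ≤ T := by exact_mod_cast hT
    have := hδ0 i
    change (3 * ((t i : ℕ) : ℤ) + 2) * δ i ≤ _
    nlinarith
  have hup2 : ∑ i ∈ B, (3 * (T : ℤ) + 2) * δ i ≤ (3 * (T : ℤ) + 2) * ∑ i, δ i := by
    rw [← Finset.mul_sum]
    have h1 : ∑ i ∈ B, δ i ≤ ∑ i, δ i :=
      Finset.sum_le_sum_of_subset_of_nonneg (Finset.subset_univ _) fun i _ _ => hδ0 i
    have h2 : (0 : ℤ) ≤ T := by positivity
    nlinarith
  rw [hδs] at hup2
  rw [hsum] at hlow
  linarith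

end

end Pool.Agent.CycNS
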