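import Mathlib
import Pool.Agent.CycNS.OneSided

/-!
# One-sided bounds for `NS` and `NS⁻` of disjoint unions of cycles
-/

namespace Pool.Agent.CycNS

open Finset

theorem sum_label' {V : Type} [Fintype V] (f : V ≃ Fin (Fintype.card V)) :
    2 * ∑ v, (((f v : ℕ) : ℤ) + 1) = Fintype.card V * (Fintype.card V + 1) := by
  have h2 : ∑ v, (((f v : ℕ) : ℤ) + 1) = ∑ i : Fin (Fintype.card V), (((i : ℕ) : ℤ) + 1) :=
    Equiv.sum_comp f (fun i : Fin (Fintype.card V) => ((i : ℕ) : ℤ) + 1)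
  have h3 : ∀ n : ℕ, 2 * ∑ i : Fin n, (((i : ℕ) : ℤ) + 1) = n * (n + 1) := by
    intro n
    rw [Fin.sum_univ_eq_sum_range (fun i => ((i : ℕ) : ℤ) + 1) n]
    induction n with
    | zero => simp
    | succ n ih => rw [Finset.sum_range_succ, mul_add, ih]; push_cast; ring
  rw [h2, h3]

theorem label_inj' {V : Type} [Fintype V] (f : V ≃ Fin (Fintype.card V)) {v w : V}
    (h : ((f v : ℕ) : ℤ) + 1 = ((f w : ℕ) : ℤ) + 1) : v = w := by
  have h1 : (f v : ℕ) = (f w : ℕ) := by exact_mod_cast add_right_cancel h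
  exact f.injective (Fin.ext h1)

theorem upper_mixed {ι : Type} [Fintype ι] (t : ι → ℕ) (ht : ∀ i, 3 ≤ t i) {V : Type}
    [Fintype V] (G : SimpleGraph V) (e : G ≃g cycles t) (T : ℕ) :
    3 * ((∑ i with (¬ 3 ∣ t i ∧ t i ≤ T), t i : ℕ) : ℤ) ^ 2 ≤
      (3 * T + 2) * (Fintype.card V * (2 * NS G - 3 * (Fintype.card V + 1))) + 3 := by
  have : Nonempty (V ≃ Fin (Fintype.card V)) := ⟨Fintype.equivFin V⟩
  obtain ⟨f, hf⟩ : ∃ f, maxS G f = NS G := exists_eq_ciInf_of_finite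
  have h := one_sided t ht e (fun v => ((f v : ℕ) : ℤ) + 1) (fun v w h => label_inj' f h)
    (NS G : ℤ) (by
      intro i j
      have h1 := nsum_pl t ht e f i j
      have h2 := le_maxS G f (pl t ht e i (j + 1))
      rw [hf] at h2
      rw [← h1]
      exact_mod_cast h2) T
  have h3 := sum_label' f
  refine le_trans h (le_of_eq ?_)
  linear_combination (-3 * (3 * (T : ℤ) + 2)) * h3

theorem lower_mixed {ι : Type} [Fintype ι] (t : ι → ℕ) (ht : ∀ i, 3 ≤ t i) {V : Type}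
    [Fintype V] (G : SimpleGraph V) (e : G ≃g cycles t) (T : ℕ) :
    3 * ((∑ i with (¬ 3 ∣ t i ∧ t i ≤ T), t i : ℕ) : ℤ) ^ 2 ≤
      (3 * T + 2) * (Fintype.card V * (3 * (Fintype.card V + 1) - 2 * NSm G)) + 3 := by
  have : Nonempty (V ≃ Fin (Fintype.card V)) := ⟨Fintype.equivFin V⟩
  obtain ⟨f, hf⟩ : ∃ f, minS G f = NSm G := exists_eq_ciSup_of_finite
  have h := one_sided t ht e (fun v => -(((f v : ℕ) : ℤ) + 1))
    (fun v w h => label_inj' f (neg_injective h)) (-(NSm G : ℤ)) (by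
      intro i j
      have h1 := nsum_pl t ht e f i j
      have h2 := minS_le G f (pl t ht e i (j + 1))
      rw [hf] at h2
      have h4 : (NSm G : ℤ) ≤ (nsum G f (pl t ht e i (j + 1)) : ℤ) := by exact_mod_cast h2
      rw [h1] at h4
      linarith) T
  have h3 := sum_label' f
  rw [Finset.sum_neg_distrib] at h
  refine le_trans h (le_of_eq ?_)
  linear_combination (3 * (3 * (T : ℤ) + 2)) * h3

/-- `k` cycles of length `s`, as a member of both families. -/
def isoCopies (k s : ℕ) : cycles (fun _ : Fin k => s) ≃g copies k s where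
  toEquiv := Equiv.sigmaEquivProd (Fin k) (Fin s)
  map_rel_iff' := by
    rintro ⟨c, u⟩ ⟨d, v⟩
    have h1 : (copies k s).Adj (c, u) (d, v) ↔
        c = d ∧ (SimpleGraph.cycleGraph s).Adj u v := by
      unfold copies
      rw [SimpleGraph.boxProd_adj]
      simp only [SimpleGraph.bot_adj, false_and, false_or]
      tauto
    change (copies k s).Adj (c, u) (d, v) ↔ _
    rw [h1]
    constructor
    · rintro ⟨rfl, h⟩
      exact ⟨c, u, v, rfl, rfl, h⟩
    · rintro ⟨i, a, b, h2, h3, h4⟩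
      obtain ⟨rfl, h2'⟩ := Sigma.mk.inj_iff.1 h2
      obtain ⟨rfl, h3'⟩ := Sigma.mk.inj_iff.1 h3
      rw [eq_of_heq h2', eq_of_heq h3']
      exact ⟨rfl, h4⟩

end Pool.Agent.CycNS
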