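import Mathlib
import Pool.Agent.CycNS.Wave

/-!
# The labelings of `k C_t`
-/

namespace Pool.Agent.CycNS

open Finset

theorem block_unique (m a a' w w' : ℤ) (hw : 1 ≤ w ∧ w ≤ m) (hw' : 1 ≤ w' ∧ w' ≤ m)
    (h : m * a + w = m * a' + w') : a = a' ∧ w = w' := by
  have h1 : a = a' := by
    rcases lt_trichotomy a a' with hlt | heq | hgt
    · exfalso
      have : m * (a + 1) ≤ m * a' := mul_le_mul_of_nonneg_left (by omega) (by omega)
      linarith
    · exact heq
    · exfalso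
      have : m * (a' + 1) ≤ m * a := mul_le_mul_of_nonneg_left (by omega) (by omega)
      linarith
  subst h1
  exact ⟨rfl, by linarith⟩

/-- The block index, `k = 2 h + 1`. -/
def blk (h c r : ℕ) : ℕ :=
  if r = 0 then c
  else if r = 1 then (2 * h + 1) + (if c ≤ h then c + h else c - h - 1)
  else 2 * (2 * h + 1) + (if c ≤ h then 2 * h - 2 * c else 4 * h + 1 - 2 * c)

theorem blk_lt (h c r : ℕ) (hc : c < 2 * h + 1) : blk h c r < 3 * (2 * h + 1) := by
  unfold blk; split_ifs <;> omega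

theorem blk_inj (h c c' r r' : ℕ) (hc : c < 2 * h + 1) (hc' : c' < 2 * h + 1) (hr : r < 3)
    (hr' : r' < 3) (he : blk h c r = blk h c' r') : c = c' ∧ r = r' := by
  unfold blk at he; split_ifs at he <;> omega

theorem blk_sum (h c : ℕ) (hc : c < 2 * h + 1) :
    blk h c 0 + blk h c 1 + blk h c 2 = 3 * (2 * h + 1) + 3 * h := by
  unfold blk; simp only [if_true]; norm_num; split_ifs <;> omega

/-- Labels for an odd number of cycles. -/
theorem labels_odd (h m : ℕ) (hm : 1 ≤ m) (δ : ℤ) (hgood : Good m δ) :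
    ∃ lab : Fin (2 * h + 1) → ℕ → ℤ, (∀ c j, lab c (j + 3 * m) = lab c j) ∧
      (∀ c j, 1 ≤ lab c j ∧ lab c j ≤ ((2 * h + 1 : ℕ) : ℤ) * ((3 * m : ℕ) : ℤ)) ∧
      (∀ c c' i j, i < 3 * m → j < 3 * m → lab c i = lab c' j → c = c' ∧ i = j) ∧
      ∀ c j, Bd (3 * ((((2 * h + 1 : ℕ) : ℤ) * ((3 * m : ℕ) : ℤ)) + 1)) δ
        (lab c j + lab c (j + 1) + lab c (j + 2)) := by
  obtain ⟨W, hper, hr, hinj, hs⟩ := hgood
  refine ⟨fun c j => m * (blk h c (j % 3) : ℕ) + W j, ?_, ?_, ?_, ?_⟩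
  · intro c j
    show (m : ℤ) * (blk h c ((j + 3 * m) % 3) : ℕ) + W (j + 3 * m) = m * (blk h c (j % 3) : ℕ) + W j
    rw [hper, show (j + 3 * m) % 3 = j % 3 by omega]
  · intro c j
    have h1 := hr j
    have h2 := blk_lt h c (j % 3) c.isLt
    have h3 : (m : ℤ) * (blk h c (j % 3) : ℕ) ≤ m * (3 * (2 * h + 1) - 1) :=
      mul_le_mul_of_nonneg_left (by push_cast at *; omega) (by positivity)
    have h4 : (0 : ℤ) ≤ (m : ℤ) * (blk h c (j % 3) : ℕ) := by positivity
    constructor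
    · linarith [h1.1]
    · push_cast at *; nlinarith [h1.2]
  · intro c c' i j hi hj he
    have he' : (m : ℤ) * (blk h c (i % 3) : ℕ) + W i = m * (blk h c' (j % 3) : ℕ) + W j := he
    obtain ⟨h1, h2⟩ := block_unique m _ _ _ _ (hr i) (hr j) he'
    have h1' : blk h c (i % 3) = blk h c' (j % 3) := by exact_mod_cast h1
    obtain ⟨h3, h4⟩ := blk_inj h c c' (i % 3) (j % 3) c.isLt c'.isLt (Nat.mod_lt _ (by norm_num))
      (Nat.mod_lt _ (by norm_num)) h1'
    exact ⟨Fin.ext h3, hinj i hi j hj h4 h2⟩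
  · intro c j
    have h1 := hs j
    have h2 := blk_sum h c c.isLt
    have h3 : blk h c (j % 3) + blk h c ((j + 1) % 3) + blk h c ((j + 2) % 3)
        = 3 * (2 * h + 1) + 3 * h := by
      rcases (by omega : j % 3 = 0 ∨ j % 3 = 1 ∨ j % 3 = 2) with e | e | e
      · rw [e, show (j + 1) % 3 = 1 by omega, show (j + 2) % 3 = 2 by omega]; exact h2
      · rw [e, show (j + 1) % 3 = 2 by omega, show (j + 2) % 3 = 0 by omega]; omega
      · rw [e, show (j + 1) % 3 = 0 by omega, show (j + 2) % 3 = 1 by omega]; omega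
    have h4 : ((blk h c (j % 3) : ℕ) : ℤ) + (blk h c ((j + 1) % 3) : ℕ)
        + (blk h c ((j + 2) % 3) : ℕ) = 3 * (2 * h + 1) + 3 * h := by exact_mod_cast h3
    have h5 : ((m : ℤ) * (blk h c (j % 3) : ℕ) + W j) + (m * (blk h c ((j + 1) % 3) : ℕ) + W (j + 1))
        + (m * (blk h c ((j + 2) % 3) : ℕ) + W (j + 2))
        = m * (3 * (2 * h + 1) + 3 * h) + (W j + W (j + 1) + W (j + 2)) := by
      rw [← h4]; ring
    show Bd _ _ (((m : ℤ) * (blk h c (j % 3) : ℕ) + W j) +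
      (m * (blk h c ((j + 1) % 3) : ℕ) + W (j + 1)) + (m * (blk h c ((j + 2) % 3) : ℕ) + W (j + 2)))
    rw [h5]
    unfold Bd at h1 ⊢
    push_cast
    constructor
    · nlinarith [h1.1]
    · nlinarith [h1.2]

/-! ### An even number of cycles -/

/-- The zigzag `1, 3, 5, …, 6, 4, 2`. -/
def zz (m p : ℕ) : ℤ :=
  if 2 * (p % m) + 1 ≤ m then 2 * ((p % m : ℕ) : ℤ) + 1 else 2 * ((m : ℤ) - ((p % m : ℕ) : ℤ))

theorem zz_range (m p : ℕ) (hm : 1 ≤ m) : 1 ≤ zz m p ∧ zz m p ≤ m := by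
  have := Nat.mod_lt p (show 0 < m by omega)
  unfold zz; split_ifs <;> omega

theorem zz_inj (m p q : ℕ) (hm : 1 ≤ m) (h : zz m p = zz m q) : p % m = q % m := by
  have := Nat.mod_lt p (show 0 < m by omega)
  have := Nat.mod_lt q (show 0 < m by omega)
  unfold zz at h; split_ifs at h <;> omega

theorem zz_per (m p : ℕ) : zz m (p + m) = zz m p := by
  unfold zz; rw [Nat.add_mod_right]

/-- The largest step of the zigzag. -/
def zstep (m : ℕ) : ℤ := if m = 1 then 0 else if m = 2 then 1 else 2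

theorem zz_step (m p : ℕ) (hm : 1 ≤ m) :
    -zstep m ≤ zz m (p + 1) - zz m p ∧ zz m (p + 1) - zz m p ≤ zstep m := by
  have h1 := Nat.mod_lt p (show 0 < m by omega)
  have h2 : (p + 1) % m = if p % m + 1 = m then 0 else p % m + 1 := by
    rw [show (p + 1) % m = (p % m + 1) % m by rw [Nat.mod_add_mod]]
    split_ifs with h
    · rw [h, Nat.mod_self]
    · exact Nat.mod_eq_of_lt (by omega)
  unfold zz zstep
  rw [h2]
  generalize p % m = a at *
  by_cases ha : a + 1 = m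
  · rw [if_pos ha]
    split_ifs <;> push_cast <;> omega
  · rw [if_neg ha]
    split_ifs <;> push_cast <;> omega

/-- First index of the interval used by class `r = 1` of cycle `c`, `k = 2 h`. -/
def iy (h c : ℕ) : ℕ := if c % 2 = 0 then 2 * h + (h - 1 - c / 2) else 3 * h + (h - 1 - c / 2)

def iz (h c : ℕ) : ℕ := if c % 2 = 0 then 5 * h + (h - 1 - c / 2) else 4 * h + (h - 1 - c / 2)

/-- The labels for `k = 2 h`. -/
def labE (h m c j : ℕ) : ℤ :=
  if j % 3 = 0 then m * (2 * (c / 2) : ℕ) + (2 * zz m (j / 3) - 1 + (c % 2 : ℕ))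
  else if j % 3 = 1 then m * (iy h c : ℕ) + ((m : ℤ) + 1 - zz m (j / 3))
  else m * (iz h c : ℕ) + ((m : ℤ) + 1 - zz m (j / 3 + 1))

theorem labE_per (h m c j : ℕ) : labE h m c (j + 3 * m) = labE h m c j := by
  unfold labE
  rw [show (j + 3 * m) % 3 = j % 3 by omega, show (j + 3 * m) / 3 = j / 3 + m by omega, zz_per,
    show j / 3 + m + 1 = (j / 3 + 1) + m by ring, zz_per]

theorem labE_range (h m c j : ℕ) (hm : 1 ≤ m) (hc : c < 2 * h) :
    1 ≤ labE h m c j ∧ labE h m c j ≤ (2 * h : ℤ) * (3 * m) := by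
  have z1 := zz_range m (j / 3) hm
  have z2 := zz_range m (j / 3 + 1) hm
  have hm' : (1 : ℤ) ≤ m := by exact_mod_cast hm
  unfold labE
  split_ifs with h0 h1
  · have hb : ((2 * (c / 2) : ℕ) : ℤ) + 2 ≤ 2 * h := by omega
    have hb0 : (0 : ℤ) ≤ m * ((2 * (c / 2) : ℕ) : ℤ) := by positivity
    have hb1 : (m : ℤ) * (((2 * (c / 2) : ℕ) : ℤ) + 2) ≤ m * (2 * h) :=
      mul_le_mul_of_nonneg_left hb (by positivity)
    have hc2 : ((c % 2 : ℕ) : ℤ) ≤ 1 := by omega
    have hc0 : (0 : ℤ) ≤ ((c % 2 : ℕ) : ℤ) := by positivity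
    constructor
    · linarith [z1.1]
    · have : (0 : ℤ) ≤ m * h := by positivity
      nlinarith [z1.2]
  · have hb : ((iy h c : ℕ) : ℤ) + 1 ≤ 6 * h := by unfold iy; split_ifs <;> omega
    have hb0 : (0 : ℤ) ≤ m * ((iy h c : ℕ) : ℤ) := by positivity
    have hb1 : (m : ℤ) * (((iy h c : ℕ) : ℤ) + 1) ≤ m * (6 * h) :=
      mul_le_mul_of_nonneg_left hb (by positivity)
    constructor
    · linarith [z1.2]
    · nlinarith [z1.1]
  · have hb : ((iz h c : ℕ) : ℤ) + 1 ≤ 6 * h := by unfold iz; split_ifs <;> omega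
    have hb0 : (0 : ℤ) ≤ m * ((iz h c : ℕ) : ℤ) := by positivity
    have hb1 : (m : ℤ) * (((iz h c : ℕ) : ℤ) + 1) ≤ m * (6 * h) :=
      mul_le_mul_of_nonneg_left hb (by positivity)
    constructor
    · linarith [z2.2]
    · nlinarith [z2.1]

theorem labE_inj (h m : ℕ) (hm : 1 ≤ m) (c c' i j : ℕ) (hc : c < 2 * h) (hc' : c' < 2 * h)
    (hi : i < 3 * m) (hj : j < 3 * m) (he : labE h m c i = labE h m c' j) : c = c' ∧ i = j := by
  have z1 := zz_range m (i / 3) hm
  have z2 := zz_range m (i / 3 + 1) hm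
  have z3 := zz_range m (j / 3) hm
  have z4 := zz_range m (j / 3 + 1) hm
  have hm' : (1 : ℤ) ≤ m := by exact_mod_cast hm
  have hmod : ∀ a b, a < m → b < m → zz m a = zz m b → a = b := by
    intro a b ha hb hab
    have := zz_inj m a b hm hab
    rwa [Nat.mod_eq_of_lt ha, Nat.mod_eq_of_lt hb] at this
  have hmod1 : ∀ a b, a < m → b < m → zz m (a + 1) = zz m (b + 1) → a = b := by
    intro a b ha hb hab
    have := zz_inj m (a + 1) (b + 1) hm hab
    have h2 : a ≡ b [MOD m] := Nat.ModEq.add_right_cancel' 1 this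
    exact Nat.ModEq.eq_of_lt_of_lt h2 ha hb
  -- the first class lies below `2 m h`, the others above
  have low : ∀ b : ℕ, ∀ w : ℤ, b < h → w ≤ 2 * m → (m : ℤ) * (2 * b : ℕ) + w ≤ m * (2 * h) := by
    intro b w hb hw
    have : (m : ℤ) * (2 * (b : ℤ) + 2) ≤ m * (2 * h) :=
      mul_le_mul_of_nonneg_left (by omega) (by positivity)
    push_cast; linarith
  have high : ∀ a : ℕ, ∀ w : ℤ, 2 * h ≤ a → 1 ≤ w → (m : ℤ) * (2 * h) < m * (a : ℕ) + w := by
    intro a w ha hw
    have : (m : ℤ) * (2 * h) ≤ m * (a : ℤ) :=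
      mul_le_mul_of_nonneg_left (by exact_mod_cast ha) (by positivity)
    linarith
  have hy : ∀ c, 2 * h ≤ iy h c := by intro c; unfold iy; split_ifs <;> omega
  have hz : ∀ c, c < 2 * h → 2 * h ≤ iz h c := by intro c hc; unfold iz; split_ifs <;> omega
  have hc2 : ((c % 2 : ℕ) : ℤ) ≤ 1 := by omega
  have hc2' : ((c' % 2 : ℕ) : ℤ) ≤ 1 := by omega
  have l1 := low (c / 2) (2 * zz m (i / 3) - 1 + (c % 2 : ℕ)) (by omega) (by linarith [z1.2])
  have l2 := low (c' / 2) (2 * zz m (j / 3) - 1 + (c' % 2 : ℕ)) (by omega) (by linarith [z3.2])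
  have y1 := high (iy h c) ((m : ℤ) + 1 - zz m (i / 3)) (hy c) (by linarith [z1.2])
  have y2 := high (iy h c') ((m : ℤ) + 1 - zz m (j / 3)) (hy c') (by linarith [z3.2])
  have w1 := high (iz h c) ((m : ℤ) + 1 - zz m (i / 3 + 1)) (hz c hc) (by linarith [z2.2])
  have w2 := high (iz h c') ((m : ℤ) + 1 - zz m (j / 3 + 1)) (hz c' hc') (by linarith [z4.2])
  have hi3 : i / 3 < m := by omega
  have hj3 : j / 3 < m := by omega
  unfold labE at he
  split_ifs at he with i0 j0 j1 i1 j0 j1 j0 j1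
  · -- both first class
    have e1 : (m : ℤ) * (2 * (c / 2) : ℕ) + (2 * zz m (i / 3) - 1 + (c % 2 : ℕ))
      = (2 * m : ℤ) * (c / 2 : ℕ) + (2 * zz m (i / 3) - 1 + (c % 2 : ℕ)) := by push_cast; ring
    have e2 : (m : ℤ) * (2 * (c' / 2) : ℕ) + (2 * zz m (j / 3) - 1 + (c' % 2 : ℕ))
      = (2 * m : ℤ) * (c' / 2 : ℕ) + (2 * zz m (j / 3) - 1 + (c' % 2 : ℕ)) := by push_cast; ring
    rw [e1, e2] at he
    obtain ⟨h1, h2⟩ := block_unique (2 * m) _ _ _ _
      ⟨by linarith [z1.1, (by positivity : (0 : ℤ) ≤ ((c % 2 : ℕ) : ℤ))], by linarith [z1.2]⟩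
      ⟨by linarith [z3.1, (by positivity : (0 : ℤ) ≤ ((c' % 2 : ℕ) : ℤ))], by linarith [z3.2]⟩ he
    have h3 : zz m (i / 3) = zz m (j / 3) := by omega
    have h4 := hmod _ _ hi3 hj3 h3
    omega
  · exfalso; linarith
  · exfalso; linarith
  · exfalso; linarith
  · obtain ⟨h1, h2⟩ := block_unique m _ _ _ _ ⟨by linarith [z1.2], by linarith [z1.1]⟩
      ⟨by linarith [z3.2], by linarith [z3.1]⟩ he
    have h3 : zz m (i / 3) = zz m (j / 3) := by linarith
    have h4 := hmod _ _ hi3 hj3 h3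
    have h5 : iy h c = iy h c' := by exact_mod_cast h1
    unfold iy at h5
    split_ifs at h5 <;> omega
  · exfalso
    obtain ⟨h1, _⟩ := block_unique m _ _ _ _ ⟨by linarith [z1.2], by linarith [z1.1]⟩
      ⟨by linarith [z4.2], by linarith [z4.1]⟩ he
    have h5 : iy h c = iz h c' := by exact_mod_cast h1
    unfold iy iz at h5
    split_ifs at h5 <;> omega
  · exfalso; linarith
  · exfalso
    obtain ⟨h1, _⟩ := block_unique m _ _ _ _ ⟨by linarith [z2.2], by linarith [z2.1]⟩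
      ⟨by linarith [z3.2], by linarith [z3.1]⟩ he
    have h5 : iz h c = iy h c' := by exact_mod_cast h1
    unfold iy iz at h5
    split_ifs at h5 <;> omega
  · obtain ⟨h1, h2⟩ := block_unique m _ _ _ _ ⟨by linarith [z2.2], by linarith [z2.1]⟩
      ⟨by linarith [z4.2], by linarith [z4.1]⟩ he
    have h3 : zz m (i / 3 + 1) = zz m (j / 3 + 1) := by linarith
    have h4 := hmod1 _ _ hi3 hj3 h3
    have h5 : iz h c = iz h c' := by exact_mod_cast h1
    unfold iz at h5
    split_ifs at h5 <;> omega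

theorem labE_sum (h m c j : ℕ) (hm : 1 ≤ m) (hc : c < 2 * h) :
    Bd (3 * ((2 * h : ℤ) * (3 * m) + 1)) (1 + 2 * zstep m)
      (labE h m c j + labE h m c (j + 1) + labE h m c (j + 2)) := by
  have hyz : ((2 * (c / 2) : ℕ) : ℤ) + (iy h c : ℕ) + (iz h c : ℕ) = 9 * h - 2 := by
    unfold iy iz; split_ifs <;> omega
  have hmyz : (m : ℤ) * ((2 * (c / 2) : ℕ) : ℤ) + m * (iy h c : ℕ) + m * (iz h c : ℕ)
      = m * (9 * h - 2) := by rw [← hyz]; ring
  have hc2 : ((c % 2 : ℕ) : ℤ) ≤ 1 := by omega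
  have hc0 : (0 : ℤ) ≤ ((c % 2 : ℕ) : ℤ) := by positivity
  have hs0 : 0 ≤ zstep m := by unfold zstep; split_ifs <;> norm_num
  obtain ⟨q, hq⟩ : ∃ q, j = 3 * q ∨ j = 3 * q + 1 ∨ j = 3 * q + 2 := ⟨j / 3, by omega⟩
  have hd := zz_step m q hm
  rcases hq with rfl | rfl | rfl
  · have a0 : labE h m c (3 * q) = m * (2 * (c / 2) : ℕ) + (2 * zz m q - 1 + (c % 2 : ℕ)) := by
      unfold labE; rw [if_pos (by omega), show 3 * q / 3 = q by omega]
    have a1 : labE h m c (3 * q + 1) = m * (iy h c : ℕ) + ((m : ℤ) + 1 - zz m q) := by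
      unfold labE; rw [if_neg (by omega), if_pos (by omega), show (3 * q + 1) / 3 = q by omega]
    have a2 : labE h m c (3 * q + 2) = m * (iz h c : ℕ) + ((m : ℤ) + 1 - zz m (q + 1)) := by
      unfold labE; rw [if_neg (by omega), if_neg (by omega), show (3 * q + 2) / 3 = q by omega]
    rw [a0, a1, a2]
    unfold Bd
    constructor <;> nlinarith [hd.1, hd.2]
  · have a1 : labE h m c (3 * q + 1) = m * (iy h c : ℕ) + ((m : ℤ) + 1 - zz m q) := by
      unfold labE; rw [if_neg (by omega), if_pos (by omega), show (3 * q + 1) / 3 = q by omega]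
    have a2 : labE h m c (3 * q + 1 + 1) = m * (iz h c : ℕ) + ((m : ℤ) + 1 - zz m (q + 1)) := by
      unfold labE; rw [if_neg (by omega), if_neg (by omega),
        show (3 * q + 1 + 1) / 3 = q by omega]
    have a3 : labE h m c (3 * q + 1 + 2)
        = m * (2 * (c / 2) : ℕ) + (2 * zz m (q + 1) - 1 + (c % 2 : ℕ)) := by
      unfold labE; rw [if_pos (by omega), show (3 * q + 1 + 2) / 3 = q + 1 by omega]
    rw [a1, a2, a3]
    unfold Bd
    constructor <;> nlinarith [hd.1, hd.2]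
  · have a2 : labE h m c (3 * q + 2) = m * (iz h c : ℕ) + ((m : ℤ) + 1 - zz m (q + 1)) := by
      unfold labE; rw [if_neg (by omega), if_neg (by omega),
        show (3 * q + 2) / 3 = q by omega]
    have a3 : labE h m c (3 * q + 2 + 1)
        = m * (2 * (c / 2) : ℕ) + (2 * zz m (q + 1) - 1 + (c % 2 : ℕ)) := by
      unfold labE; rw [if_pos (by omega), show (3 * q + 2 + 1) / 3 = q + 1 by omega]
    have a4 : labE h m c (3 * q + 2 + 2) = m * (iy h c : ℕ) + ((m : ℤ) + 1 - zz m (q + 1)) := by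
      unfold labE; rw [if_neg (by omega), if_pos (by omega),
        show (3 * q + 2 + 2) / 3 = q + 1 by omega]
    rw [a2, a3, a4]
    unfold Bd
    constructor <;> nlinarith [hd.1, hd.2]

theorem labels_even (h m : ℕ) (hm : 1 ≤ m) :
    ∃ lab : Fin (2 * h) → ℕ → ℤ, (∀ c j, lab c (j + 3 * m) = lab c j) ∧
      (∀ c j, 1 ≤ lab c j ∧ lab c j ≤ ((2 * h : ℕ) : ℤ) * ((3 * m : ℕ) : ℤ)) ∧
      (∀ c c' i j, i < 3 * m → j < 3 * m → lab c i = lab c' j → c = c' ∧ i = j) ∧
      ∀ c j, Bd (3 * ((((2 * h : ℕ) : ℤ) * ((3 * m : ℕ) : ℤ)) + 1)) (1 + 2 * zstep m)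
        (lab c j + lab c (j + 1) + lab c (j + 2)) := by
  refine ⟨fun c j => labE h m c j, fun c j => labE_per h m c j, ?_, ?_, ?_⟩
  · intro c j
    have := labE_range h m c j hm c.isLt
    push_cast
    exact this
  · intro c c' i j hi hj he
    obtain ⟨h1, h2⟩ := labE_inj h m hm c c' i j c.isLt c'.isLt hi hj he
    exact ⟨Fin.ext h1, h2⟩
  · intro c j
    have := labE_sum h m c j hm c.isLt
    push_cast
    exact this

/-! ### Cycle lengths prime to 3 -/

/-- The low-order part of the labels: `c + 1` at even places, `k - c` at odd places. -/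
def alt (k t c j : ℕ) : ℤ := if (j % t) % 2 = 0 then (c : ℤ) + 1 else (k : ℤ) - c

theorem alt_sum (k t c j : ℕ) (hc : c < k) (ht : 4 ≤ t) :
    (k : ℤ) + 2 ≤ alt k t c j + alt k t c (j + 1) + alt k t c (j + 2) ∧
    alt k t c j + alt k t c (j + 1) + alt k t c (j + 2) ≤ 2 * k + 1 := by
  have hlt : j % t < t := Nat.mod_lt _ (by omega)
  have e1 : (j + 1) % t = (j % t + 1) % t := by rw [Nat.mod_add_mod]
  have e2 : (j + 2) % t = (j % t + 2) % t := by rw [Nat.mod_add_mod]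
  unfold alt
  rw [e1, e2]
  generalize j % t = a at *
  by_cases ha : a + 2 < t
  · rw [Nat.mod_eq_of_lt (show a + 1 < t by omega), Nat.mod_eq_of_lt ha]
    split_ifs <;> omega
  by_cases hb : a + 2 = t
  · rw [hb, Nat.mod_self, Nat.mod_eq_of_lt (show a + 1 < t by omega)]
    split_ifs <;> omega
  · obtain ⟨s, rfl⟩ : ∃ s, t = s + 1 := ⟨t - 1, by omega⟩
    obtain rfl : a = s := by omega
    rw [Nat.mod_self, show a + 2 = 1 + (a + 1) by ring, Nat.add_mod_right,
      Nat.mod_eq_of_lt (show 1 < a + 1 by omega)]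
    rcases Nat.mod_two_eq_zero_or_one a with h | h <;> rw [h] <;> norm_num <;> omega

theorem labels_scaled (k t : ℕ) (hk : 1 ≤ k) (ht : 4 ≤ t) (δ : ℤ) (hU : GoodU t δ) :
    ∃ lab : Fin k → ℕ → ℤ, (∀ c j, lab c (j + t) = lab c j) ∧
      (∀ c j, 1 ≤ lab c j ∧ lab c j ≤ (k : ℤ) * t) ∧
      (∀ c c' i j, i < t → j < t → lab c i = lab c' j → c = c' ∧ i = j) ∧
      ∀ c j, Bd (3 * (((k : ℤ) * t) + 1)) (k * δ + (k - 1))
        (lab c j + lab c (j + 1) + lab c (j + 2)) := by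
  obtain ⟨U, hper, hr, hinj, hs⟩ := hU
  have hk' : (1 : ℤ) ≤ k := by exact_mod_cast hk
  have halt : ∀ (c : Fin k) j, 1 ≤ alt k t c j ∧ alt k t c j ≤ k := by
    intro c j
    have := c.isLt
    unfold alt
    split_ifs <;> omega
  refine ⟨fun c j => k * (U j - 1) + alt k t c j, ?_, ?_, ?_, ?_⟩
  · intro c j
    show (k : ℤ) * (U (j + t) - 1) + alt k t c (j + t) = _
    rw [hper]
    unfold alt
    rw [Nat.add_mod_right]
  · intro c j
    have h1 := hr j
    have h2 := halt c j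
    have h3 : (0 : ℤ) ≤ k * (U j - 1) := mul_nonneg (by linarith) (by linarith [h1.1])
    have h4 : (k : ℤ) * (U j - 1) ≤ k * (t - 1) :=
      mul_le_mul_of_nonneg_left (by linarith [h1.2]) (by linarith)
    show 1 ≤ (k : ℤ) * (U j - 1) + alt k t c j ∧ (k : ℤ) * (U j - 1) + alt k t c j ≤ k * t
    constructor
    · linarith
    · linarith
  · intro c c' i j hi hj he
    have he' : (k : ℤ) * (U i - 1) + alt k t c i = k * (U j - 1) + alt k t c' j := he
    have hc := c.isLt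
    have hc' := c'.isLt
    obtain ⟨h1, h2⟩ := block_unique k _ _ _ _ (halt c i) (halt c' j) he'
    have hij : i = j := hinj i hi j hj (by linarith)
    subst hij
    refine ⟨Fin.ext ?_, rfl⟩
    unfold alt at h2
    split_ifs at h2 <;> omega
  · intro c j
    have h1 := hs j
    have h2 := alt_sum k t c j c.isLt ht
    show Bd _ _ (((k : ℤ) * (U j - 1) + alt k t c j) + (k * (U (j + 1) - 1) + alt k t c (j + 1)) +
      (k * (U (j + 2) - 1) + alt k t c (j + 2)))
    unfold Bd at *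
    have h6 := mul_le_mul_of_nonneg_left h1.1 (show (0 : ℤ) ≤ k by linarith)
    have h7 := mul_le_mul_of_nonneg_left h1.2 (show (0 : ℤ) ≤ k by linarith)
    constructor
    · linarith [h2.1]
    · linarith [h2.2]

end Pool.Agent.CycNS
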