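import Mathlib
import Pool.Agent.CycNS.Graph

/-!
# `k C_6` for even `k`
-/

namespace Pool.Agent.CycNS.CycEnum

open Finset

variable {V : Type*} [Fintype V] {G : SimpleGraph V} {k : ℕ} (E : CycEnum G k 6)
include E

theorem F_pos (f) (c : Fin k) (j : ℕ) : 1 ≤ E.F f c j := by unfold F; omega

theorem F_le (f) (c : Fin k) (j : ℕ) : E.F f c j ≤ 6 * k := by
  unfold F
  have h := E.card_eq
  have hlt := (f (E.x c j)).isLt
  generalize (f (E.x c j) : ℕ) = a at *
  omega

/-- Equal labels sit at equal vertices. -/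
theorem F_inj_all (f) (c c' : Fin k) (i j : ℕ) (h : E.F f c i = E.F f c' j) :
    E.x c i = E.x c' j := by
  unfold F at h
  have h1 : (f (E.x c i) : ℕ) = (f (E.x c' j) : ℕ) := by exact_mod_cast add_right_cancel h
  exact f.injective (Fin.ext h1)

/-- Every value in `[1, 6 k]` is a label. -/
theorem F_surj (f) (a : ℤ) (h1 : 1 ≤ a) (h2 : a ≤ 6 * k) : ∃ c j, E.F f c j = a := by
  have h := E.card_eq
  have hlt : (a - 1).toNat < Fintype.card V := by omega
  obtain ⟨c, j, _, hx⟩ := E.surj (f.symm ⟨(a - 1).toNat, hlt⟩)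
  refine ⟨c, j, ?_⟩
  unfold F
  rw [hx, Equiv.apply_symm_apply]
  show (((a - 1).toNat : ℕ) : ℤ) + 1 = a
  omega

theorem pair_up (f) (hstep : ∀ c i, E.F f c (i + 3) - E.F f c i = 1 ∨
    E.F f c (i + 3) - E.F f c i = -1) :
    ∀ p : ℕ, ∀ c i, E.F f c i = 2 * (p : ℤ) + 1 → E.F f c (i + 3) = 2 * (p : ℤ) + 2 := by
  intro p
  induction p using Nat.strong_induction_on with
  | _ p ih =>
    intro c i hi
    rcases hstep c i with h | h
    · linarith
    · exfalso
      have h1 : E.F f c (i + 3) = 2 * (p : ℤ) := by linarith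
      rcases Nat.eq_zero_or_pos p with rfl | hp
      · have := E.F_pos f c (i + 3)
        rw [h1] at this
        norm_num at this
      · have hle := E.F_le f c i
        obtain ⟨c', i', hci⟩ := E.F_surj f (2 * ((p - 1 : ℕ) : ℤ) + 1) (by omega) (by omega)
        have h2 := ih (p - 1) (by omega) c' i' hci
        have h3 : E.F f c' (i' + 3) = E.F f c (i + 3) := by rw [h1, h2]; omega
        have h4 := E.F_inj_all f _ _ _ _ h3
        have h5 : E.x c' ((i' + 3) % 6) = E.x c ((i + 3) % 6) := by
          rw [← E.pmod, ← E.pmod]; exact h4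
        obtain ⟨h6, h7⟩ := E.inj c' c _ _ (Nat.mod_lt _ (by norm_num))
          (Nat.mod_lt _ (by norm_num)) h5
        have h8 : i' % 6 = i % 6 := by omega
        have h9 : E.F f c' i' = E.F f c i := by
          rw [per_mod 6 (E.F f c') (E.F_per f c') i', per_mod 6 (E.F f c) (E.F_per f c) i, h8, h6]
        rw [hci, hi] at h9
        omega

theorem six (hk : 0 < k) (hk2 : k % 2 = 0) (f) (θ : ℤ)
    (h : ∀ c j, θ ≤ E.F f c j + E.F f c (j + 1) + E.F f c (j + 2)) :
    3 ≤ 3 * ((k : ℤ) * (6 : ℕ) + 1) - 2 * θ := by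
  by_contra hlt
  have hlow := (E.low hk (by norm_num) f θ h).2.1 (by norm_num)
  have hx : 2 * θ = 18 * k + 2 := by push_cast at *; omega
  -- every cycle has excess exactly 3
  have hE : ∀ c : Fin k, 3 ≤ ∑ j ∈ range 6, (E.F f c j + E.F f c (j + 1) + E.F f c (j + 2) - θ) := by
    intro c
    have := cycle_ineq 6 (by norm_num) (E.F f c) (E.F_per f c) (E.F_inj f c) θ (h c)
    rw [if_pos (by norm_num)] at this
    push_cast at this
    omega
  have hsum : ∑ c : Fin k, (∑ j ∈ range 6,
      (E.F f c j + E.F f c (j + 1) + E.F f c (j + 2) - θ) - 3) = 0 := by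
    have h1 := E.sum_S f θ
    rw [Finset.sum_sub_distrib]
    simp only [Finset.sum_const, Finset.card_univ, Fintype.card_fin, nsmul_eq_mul]
    have h2 : 3 * ((k : ℤ) * (6 : ℕ)) * (k * (6 : ℕ) + 1) - 2 * (k * (6 : ℕ)) * θ = 6 * k := by
      have : 3 * ((k : ℤ) * (6 : ℕ)) * (k * (6 : ℕ) + 1) - 2 * (k * (6 : ℕ)) * θ
        = 6 * k * (3 * (6 * k + 1) - 2 * θ) := by push_cast; ring
      rw [this, hx]; ring
    linarith
  have hE3 : ∀ c : Fin k, ∑ j ∈ range 6,
      (E.F f c j + E.F f c (j + 1) + E.F f c (j + 2) - θ) = 3 := by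
    intro c
    have := (Finset.sum_eq_zero_iff_of_nonneg (fun c _ => by linarith [hE c])).1 hsum c
      (Finset.mem_univ c)
    linarith
  -- all steps of length three have absolute value one
  have hstep : ∀ c i, E.F f c (i + 3) - E.F f c i = 1 ∨ E.F f c (i + 3) - E.F f c i = -1 := by
    intro c
    set F := E.F f c with hF
    have per : ∀ j, F (j + 6) = F j := E.F_per f c
    have hge : ∀ i, 1 ≤ |F (i + 3) - F i| := by
      intro i
      have hne : F (i + 3) ≠ F i := by
        intro he
        have h1 : i + 3 ≡ i [MOD 6] := per_inj 6 (by norm_num) F per (E.F_inj f c) he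
        have h2 : 6 ∣ 3 := by
          have := (Nat.modEq_iff_dvd' (Nat.le_add_right i 3)).1 h1.symm
          simpa using this
        omega
      exact Int.one_le_abs (sub_ne_zero.2 hne)
    have hle : ∀ i, |F (i + 3) - F i| ≤ (F i + F (i + 1) + F (i + 2) - θ)
        + (F (i + 1) + F (i + 2) + F (i + 3) - θ) := by
      intro i
      have h1 := h c i
      have h2 := h c (i + 1)
      rw [show i + 1 + 1 = i + 2 by ring, show i + 1 + 2 = i + 3 by ring] at h2
      rw [abs_le]
      constructor <;> linarith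
    have htot := hE3 c
    have hsh := sum_shift 6 (fun j => F j + F (j + 1) + F (j + 2) - θ) (fun j => by
      show F (j + 6) + F (j + 6 + 1) + F (j + 6 + 2) - θ = _
      rw [show j + 6 + 1 = (j + 1) + 6 by ring, show j + 6 + 2 = (j + 2) + 6 by ring, per, per,
        per]) 1
    have hle6 : ∑ i ∈ range 6, |F (i + 3) - F i| ≤ 6 := by
      have h1 := Finset.sum_le_sum (fun i (_ : i ∈ range 6) => hle i)
      rw [Finset.sum_add_distrib] at h1
      have h2 : ∑ i ∈ range 6, (F (i + 1) + F (i + 2) + F (i + 3) - θ)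
        = ∑ i ∈ range 6, (F (i + 1) + F (i + 1 + 1) + F (i + 1 + 2) - θ) :=
        Finset.sum_congr rfl (fun i _ => by
          rw [show i + 1 + 1 = i + 2 by ring, show i + 1 + 2 = i + 3 by ring])
      rw [h2] at h1
      linarith
    have hone : ∀ i ∈ range 6, |F (i + 3) - F i| - 1 = 0 := by
      have h1 : ∑ i ∈ range 6, (|F (i + 3) - F i| - 1) = 0 := by
        apply le_antisymm
        · rw [Finset.sum_sub_distrib]; simp only [Finset.sum_const, Finset.card_range,
            nsmul_eq_mul]; push_cast; linarith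
        · exact Finset.sum_nonneg (fun i _ => by linarith [hge i])
      exact (Finset.sum_eq_zero_iff_of_nonneg (fun i _ => by linarith [hge i])).1 h1
    intro i
    have h1 := hone (i % 6) (Finset.mem_range.2 (Nat.mod_lt _ (by norm_num)))
    have h2 : F (i % 6 + 3) = F (i + 3) := by
      rw [per_mod 6 F per (i % 6 + 3), per_mod 6 F per (i + 3), Nat.mod_add_mod]
    have h3 : F (i % 6) = F i := (per_mod 6 F per i).symm
    rw [h2, h3] at h1
    have h4 : |F (i + 3) - F i| = 1 := by linarith
    rcases abs_choice (F (i + 3) - F i) with h5 | h5 <;> rw [h5] at h4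
    · left; exact h4
    · right; linarith
  have hpair := E.pair_up f hstep
  -- each antipodal pair of a cycle sums to `3 mod 4`
  have hmod : ∀ c j, (E.F f c j + E.F f c (j + 3)) % 4 = 3 := by
    intro c j
    have p1 := E.F_pos f c j
    have p2 := E.F_pos f c (j + 3)
    rcases Int.emod_two_eq_zero_or_one (E.F f c j) with h0 | h0
    · -- even: the partner is odd
      have h1 : E.F f c (j + 3) % 2 = 1 := by
        rcases hstep c j with h | h <;> omega
      have h2 := hpair ((E.F f c (j + 3) - 1) / 2).toNat c (j + 3) (by omega)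
      have h3 : E.F f c (j + 3 + 3) = E.F f c j := by
        rw [show j + 3 + 3 = j + 6 by ring]; exact E.F_per f c j
      rw [h3] at h2
      omega
    · have h2 := hpair ((E.F f c j - 1) / 2).toNat c j (by omega)
      omega
  -- contradiction on the first cycle
  have h3 := hE3 ⟨0, hk⟩
  have m0 := hmod ⟨0, hk⟩ 0
  have m1 := hmod ⟨0, hk⟩ 1
  have m2 := hmod ⟨0, hk⟩ 2
  have q6 := E.F_per f ⟨0, hk⟩ 0
  have q7 := E.F_per f ⟨0, hk⟩ 1
  simp only [Finset.sum_range_succ, Finset.sum_range_zero] at h3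
  norm_num at h3 m0 m1 m2 q6 q7
  rw [q6, q7] at h3
  omega

end Pool.Agent.CycNS.CycEnum
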